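import Pool.Agent.FF85.D3.Defs
import Pool.Agent.FF61.VolEq

set_option autoImplicit false
set_option linter.unusedSectionVars false

/-!
# FF85/D3/AreaS45: opposite facets with equal edges have equal area
-/

namespace Pool.FF85.D3

open Set Filter Topology MeasureTheory Pool.PT56
open scoped RealInnerProductSpace ENNReal

variable {E : Type} [NormedAddCommGroup E] [InnerProductSpace ℝ E] [FiniteDimensional ℝ E]
  [MeasurableSpace E] [BorelSpace E]

/-- the face in direction `u`, moved to the hyperplane `W` -/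
def secW45 (W : Submodule ℝ E) (P : Set E) (u : E) : Set W :=
  (fun y : W => spt P u • u + (y : E)) ⁻¹' (face P u)

theorem secW45_facts {P : Set E} (hP : Polytope P) {u : E} (hf : Facet P u) (W : Submodule ℝ E)
    (hW : W = (ℝ ∙ u)ᗮ) :
    Polytope (secW45 W P u) ∧ volume (secW45 W P u) = volume (prism (face P u) u) ∧
      Module.finrank ℝ W = Module.finrank ℝ E - 1 ∧
      ∀ v : W, ‖v‖ = 1 → volume (prism (face (secW45 W P u) v) v) = gv P u (v : E) := by
  subst hW
  have hc := hP.compact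
  refine ⟨secQ_polytope hP hf, vol_secQ hc hf.1, finrank_perp1 hf.1, fun v hv => ?_⟩
  have hQ := secQ_compact hc hf.1
  rw [gv_eq hc hf.1 v]
  exact vol_prism_muHE hv (face_compact hQ v) (fun x hx => ((mem_face_iff hQ).mp hx).2)

theorem area_eq45 (h3 : Module.finrank ℝ E = 3) {P : Set E} (hP : Polytope P) {u : E}
    (hf : Facet P u) (hf' : Facet P (-u))
    (h : ∀ v, ‖v‖ = 1 → ⟪u, v⟫ = 0 → gv P (-u) v = gv P u v) :
    volume (prism (face P u) u) = volume (prism (face P (-u)) u) := by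
  have hc := hP.compact
  have hW : (ℝ ∙ u)ᗮ = (ℝ ∙ (-u))ᗮ := by
    ext x
    rw [PT57.mem_perp_iff, PT57.mem_perp_iff, inner_neg_left, neg_eq_zero]
  obtain ⟨a1, a2, a3, a4⟩ := secW45_facts hP hf (ℝ ∙ u)ᗮ rfl
  obtain ⟨b1, b2, b3, b4⟩ := secW45_facts hP hf' (ℝ ∙ u)ᗮ hW
  have hv : volume (secW45 (ℝ ∙ u)ᗮ P u) = volume (secW45 (ℝ ∙ u)ᗮ P (-u)) := by
    refine vol_eq_of_facets (by omega) a1 b1 fun v hv => ?_
    rw [a4 v hv, b4 v hv]
    exact (h (v : E) hv (PT57.mem_perp_iff.mp v.2)).symm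
  rw [← a2, hv, b2, vol_prism_muHE hf'.1 (face_compact hc (-u))
    (fun x hx => ((mem_face_iff hc).mp hx).2),
    vol_prism_muHE hf.1 (face_compact hc (-u)) (fun x hx => face_neg_level hc hx)]

end Pool.FF85.D3
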