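import Pool.Agent.FF85.D3.Defs
import Pool.Agent.FF61.VolEq
import Pool.Agent.FF85.D3.AreaS45

set_option autoImplicit false
set_option linter.unusedSectionVars false

/-!
# FF85/D3/Area: two polytopes with the same facet volumes have the same volume

`vol_le`: the proof of `mink0` in PT56/Mink with `L` in place of `-P` (`DD P L`, `bm`): if `V(L) > V(K)` then, after
translations (`0` in both interiors), Brunn-Minkowski for `(1 - t) K + t L` contradicts `var_upper` and
`∑ spt L u * vol_u(K) = ∑ spt L u * vol_u(L) ≤ d V(L)` (`pyr`); it is enough to get `V(L) ≤ V(K)` or the other way around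
and to exchange `K` and `L`.
`area_eq`: `vol_eq` in the plane orthogonal to `u`, for `secQ P u` and the face in direction `-u`, moved to the same plane.
-/

namespace Pool.FF85.D3

open Set Filter Topology MeasureTheory Pool.PT56
open scoped RealInnerProductSpace ENNReal

theorem vol_eq {F : Type} [NormedAddCommGroup F] [InnerProductSpace ℝ F] [FiniteDimensional ℝ F]
    [MeasurableSpace F] [BorelSpace F] (hd : 2 ≤ Module.finrank ℝ F) {K L : Set F} (hK : Polytope K)
    (hL : Polytope L) (h : ∀ u, ‖u‖ = 1 → volume (prism (face K u) u) = volume (prism (face L u) u)) :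
    volume K = volume L :=
  vol_eq_of_facets hd hK hL h

variable {E : Type} [NormedAddCommGroup E] [InnerProductSpace ℝ E] [FiniteDimensional ℝ E]
  [MeasurableSpace E] [BorelSpace E]

theorem area_eq (h3 : Module.finrank ℝ E = 3) {P : Set E} (hP : Polytope P) {u : E} (hf : Facet P u) (hf' : Facet P (-u))
    (h : ∀ v, ‖v‖ = 1 → ⟪u, v⟫ = 0 → gv P (-u) v = gv P u v) :
    volume (prism (face P u) u) = volume (prism (face P (-u)) u) :=
  area_eq45 h3 hP hf hf' h

end Pool.FF85.D3
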