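import Pool.Agent.FF85.D3.Defs

set_option autoImplicit false
set_option linter.unusedSectionVars false

/-!
# FF85/D3/Bal: the balance law around a circle

`circ_const`: `L t = gv P (ww t) (ww' t) + gv P (-ww t) (-ww' t)` is locally constant: to the right of `t` by `gv_rot`
(directions `ww' t`, `-ww' t`); to the left of `t` by `gv_rot` (directions `-ww' t`, `ww' t`) and the law `gv_law` at `t`
and at `y` (the proof of `facC_circle` in PT56/FacC). `circ_sym`: the proof of `facC_circle` with `hsymm` as the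
hypothesis.
-/

namespace Pool.FF85.D3

open Set Filter Topology MeasureTheory Pool.PT56
open scoped RealInnerProductSpace ENNReal

variable {E : Type} [NormedAddCommGroup E] [InnerProductSpace ℝ E] [FiniteDimensional ℝ E]
  [MeasurableSpace E] [BorelSpace E]

/-- to the right -/
theorem rot_right {P : Set E} (hP : Polytope P) (u v : E) (t : ℝ) :
    ∃ δ > 0, ∀ y, t < y → y < t + δ →
      gv P (ww u v y) (ww' u v y) = gv P (ww u v t) (ww' u v t) ∧
      gv P (-ww u v y) (-ww' u v y) = gv P (-ww u v t) (-ww' u v t) := by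
  obtain ⟨δ1, hδ1, h1⟩ := mem_nhdsGT_iff_exists_Ioo_subset.mp (gv_rot hP (ww u v t) (ww' u v t))
  obtain ⟨δ2, hδ2, h2⟩ := mem_nhdsGT_iff_exists_Ioo_subset.mp (gv_rot hP (-ww u v t) (-ww' u v t))
  have hδ1' : (0 : ℝ) < δ1 := hδ1
  have hδ2' : (0 : ℝ) < δ2 := hδ2
  refine ⟨min δ1 δ2, lt_min hδ1' hδ2', fun y hy hy' => ?_⟩
  have m1 : y - t ∈ Ioo (0 : ℝ) δ1 := ⟨by linarith, by linarith [min_le_left δ1 δ2]⟩
  have m2 : y - t ∈ Ioo (0 : ℝ) δ2 := ⟨by linarith, by linarith [min_le_right δ1 δ2]⟩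
  have h3 : gv P (Real.cos (y - t) • ww u v t + Real.sin (y - t) • (ww' u v t))
      (-Real.sin (y - t) • ww u v t + Real.cos (y - t) • (ww' u v t)) =
      gv P (ww u v t) (ww' u v t) := h1 m1
  have h4 : gv P (Real.cos (y - t) • (-ww u v t) + Real.sin (y - t) • (-ww' u v t))
      (-Real.sin (y - t) • (-ww u v t) + Real.cos (y - t) • (-ww' u v t)) =
      gv P (-ww u v t) (-ww' u v t) := h2 m2
  have h5 : y = t + (y - t) := by ring
  have h6 : ww u v y = Real.cos (y - t) • ww u v t + Real.sin (y - t) • (ww' u v t) := by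
    conv_lhs => rw [h5]
    exact ww_add u v t (y - t)
  have h7 : ww' u v y = (-Real.sin (y - t) • ww u v t + Real.cos (y - t) • (ww' u v t)) := by
    conv_lhs => rw [h5]
    exact ww'_add u v t (y - t)
  refine ⟨by rw [h6, h7, h3], ?_⟩
  rw [← h4, h6, h7]
  congr 1 <;> module

/-- to the left -/
theorem rot_left {P : Set E} (hP : Polytope P) (u v : E) (t : ℝ) :
    ∃ δ > 0, ∀ y, t - δ < y → y < t →
      gv P (ww u v y) (-ww' u v y) = gv P (ww u v t) (-ww' u v t) ∧
      gv P (-ww u v y) (ww' u v y) = gv P (-ww u v t) (ww' u v t) := by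
  obtain ⟨δ1, hδ1, h1⟩ := mem_nhdsGT_iff_exists_Ioo_subset.mp (gv_rot hP (ww u v t) (-ww' u v t))
  obtain ⟨δ2, hδ2, h2⟩ := mem_nhdsGT_iff_exists_Ioo_subset.mp (gv_rot hP (-ww u v t) (ww' u v t))
  have hδ1' : (0 : ℝ) < δ1 := hδ1
  have hδ2' : (0 : ℝ) < δ2 := hδ2
  refine ⟨min δ1 δ2, lt_min hδ1' hδ2', fun y hy hy' => ?_⟩
  have m1 : t - y ∈ Ioo (0 : ℝ) δ1 := ⟨by linarith, by linarith [min_le_left δ1 δ2]⟩
  have m2 : t - y ∈ Ioo (0 : ℝ) δ2 := ⟨by linarith, by linarith [min_le_right δ1 δ2]⟩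
  have h3 : gv P (Real.cos (t - y) • ww u v t + Real.sin (t - y) • (-ww' u v t))
      (-Real.sin (t - y) • ww u v t + Real.cos (t - y) • (-ww' u v t)) =
      gv P (ww u v t) (-ww' u v t) := h1 m1
  have h4 : gv P (Real.cos (t - y) • (-ww u v t) + Real.sin (t - y) • (ww' u v t))
      (-Real.sin (t - y) • (-ww u v t) + Real.cos (t - y) • (ww' u v t)) =
      gv P (-ww u v t) (ww' u v t) := h2 m2
  have h5 : y = t - (t - y) := by ring
  have h6 : ww u v y = Real.cos (t - y) • ww u v t + Real.sin (t - y) • (-ww' u v t) := by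
    conv_lhs => rw [h5]
    exact ww_sub u v t (t - y)
  have h7 : ww' u v y = -(-Real.sin (t - y) • ww u v t + Real.cos (t - y) • (-ww' u v t)) := by
    conv_lhs => rw [h5]
    exact ww'_sub u v t (t - y)
  refine ⟨by rw [h6, h7, neg_neg, h3], ?_⟩
  rw [← h4, h6, h7]
  congr 1 <;> module

/-- a function on the line which is locally constant on both sides -/
theorem const_of_sides {α : Type*} {f : ℝ → α}
    (hr : ∀ t, ∃ δ > 0, ∀ y, t < y → y < t + δ → f y = f t)
    (hl : ∀ t, ∃ δ > 0, ∀ y, t - δ < y → y < t → f y = f t) (s t : ℝ) : f s = f t := by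
  have hloc : IsLocallyConstant f := by
    rw [IsLocallyConstant.iff_eventually_eq]
    intro t
    obtain ⟨δ1, hδ1, h1⟩ := hr t
    obtain ⟨δ2, hδ2, h2⟩ := hl t
    rw [Metric.eventually_nhds_iff]
    refine ⟨min δ1 δ2, lt_min hδ1 hδ2, fun y hy => ?_⟩
    rw [Real.dist_eq, abs_lt] at hy
    rcases lt_trichotomy y t with hyt | hyt | hyt
    · exact h2 y (by linarith [hy.1, min_le_right δ1 δ2]) hyt
    · rw [hyt]
    · exact h1 y hyt (by linarith [hy.2, min_le_left δ1 δ2])
  exact hloc.apply_eq_of_preconnectedSpace s t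

theorem circ_const {P : Set E} (hP : Polytope P) (hT : Tiles P) {u v : E} (hu : ‖u‖ = 1)
    (hv : ‖v‖ = 1) (huv : ⟪u, v⟫ = 0) (t : ℝ) :
    gv P (ww u v t) (ww' u v t) + gv P (-ww u v t) (-ww' u v t) = gv P u v + gv P (-u) (-v) := by
  have hlaw : ∀ t, gv P (ww u v t) (ww' u v t) + gv P (-ww u v t) (-ww' u v t) =
      gv P (ww u v t) (-ww' u v t) + gv P (-ww u v t) (ww' u v t) := fun t =>
    gv_law hP.compact hP.conv hP.2 hT (norm_ww hu hv huv t) (norm_ww' hu hv huv t)
      (inner_ww hu hv huv t)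
  have hfin := const_of_sides
    (f := fun t => gv P (ww u v t) (ww' u v t) + gv P (-ww u v t) (-ww' u v t))
    (fun t => by
      obtain ⟨δ, hδ, h⟩ := rot_right hP u v t
      refine ⟨δ, hδ, fun y hy hy' => ?_⟩
      obtain ⟨h1, h2⟩ := h y hy hy'
      show gv P (ww u v y) (ww' u v y) + gv P (-ww u v y) (-ww' u v y) = _
      rw [h1, h2])
    (fun t => by
      obtain ⟨δ, hδ, h⟩ := rot_left hP u v t
      refine ⟨δ, hδ, fun y hy hy' => ?_⟩
      obtain ⟨h1, h2⟩ := h y hy hy'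
      show gv P (ww u v y) (ww' u v y) + gv P (-ww u v y) (-ww' u v y) =
        gv P (ww u v t) (ww' u v t) + gv P (-ww u v t) (-ww' u v t)
      rw [hlaw y, hlaw t, h1, h2]) t 0
  have e3 : ww u v 0 = u := by unfold ww; simp
  have e4 : ww' u v 0 = v := by unfold ww'; simp
  simp only [e3, e4] at hfin
  exact hfin

theorem circ_sym {P : Set E} (hP : Polytope P) {u v : E} (hu : ‖u‖ = 1)
    (hv : ‖v‖ = 1) (huv : ⟪u, v⟫ = 0)
    (hs : ∀ t, gv P (ww u v t) (-ww' u v t) = gv P (ww u v t) (ww' u v t)) :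
    gv P (-u) (-v) = gv P u v := by
  have hfin := const_of_sides
    (f := fun t => gv P (ww u v t) (ww' u v t))
    (fun t => by
      obtain ⟨δ, hδ, h⟩ := rot_right hP u v t
      exact ⟨δ, hδ, fun y hy hy' => (h y hy hy').1⟩)
    (fun t => by
      obtain ⟨δ, hδ, h⟩ := rot_left hP u v t
      refine ⟨δ, hδ, fun y hy hy' => ?_⟩
      show gv P (ww u v y) (ww' u v y) = gv P (ww u v t) (ww' u v t)
      rw [← hs y, ← hs t, (h y hy hy').1]) Real.pi 0
  have e1 : ww u v Real.pi = -u := by unfold ww; simp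
  have e2 : ww' u v Real.pi = -v := by unfold ww'; simp
  have e3 : ww u v 0 = u := by unfold ww; simp
  have e4 : ww' u v 0 = v := by unfold ww'; simp
  simp only [e1, e2, e3, e4] at hfin
  exact hfin

end Pool.FF85.D3
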