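import Pool.Agent.FF85.D3.Main
import Pool.Agent.FF57.Bcov
import Pool.Agent.FF25.Conv
import Pool.Agent.FF24.Gal

set_option autoImplicit false
set_option linter.unusedSectionVars false

/-!
# FF85/D3/Bridge: from the belt data `FF57.Dat` to `Var3`
-/

namespace Pool.FF85.D3

open Set Filter Topology MeasureTheory Pool.PT56
open Pool.FF24 Pool.FF57 Pool.FF56
open Pool.Agent.H14Belt (face)
open scoped RealInnerProductSpace ENNReal

variable {E : Type} [NormedAddCommGroup E] [InnerProductSpace ℝ E] [FiniteDimensional ℝ E]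
  [MeasurableSpace E] [BorelSpace E] {P : HPoly E}

theorem face_body {u : E} (hu : u ∈ P.N) : face P.body u = P.fc u := Pool.FF25.fce_eq hu

theorem spt_body {u : E} (hu : u ∈ P.N) : spt P.body u ≤ P.h u := by
  unfold spt
  apply csSup_le
  · obtain ⟨z, hz⟩ := fc_nonempty (P := P) hu
    exact ⟨_, z, hz.1, rfl⟩
  · rintro _ ⟨z, hz, rfl⟩
    exact hz u hu

theorem rep_body : Rep P.body P.N :=
  ⟨P.unit, fun x hx u hu => (hx u hu).trans (spt_body hu)⟩

theorem mem_of_facet (hP : Polytope P.body) {w : E} (hw : Facet P.body w) : w ∈ P.N := by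
  have hPc := hP.compact
  obtain ⟨hu1, hvol⟩ := hw
  by_contra huU
  apply hvol
  have hu0 : w ≠ 0 := by
    intro h; rw [h] at hu1; simp at hu1
  rw [vol_prism_face hPc hu1]
  have hsub : (fun y : (ℝ ∙ w)ᗮ => spt P.body w • w + (y : E)) ⁻¹' (face P.body w) ⊆
      ⋃ u' ∈ P.N, (fun y : (ℝ ∙ w)ᗮ => spt P.body w • w + (y : E)) ⁻¹'
        (face P.body w ∩ face P.body u') := by
    intro y hy
    obtain ⟨u', hu', hy'⟩ := face_cover hPc rep_body hu0 hy
    simp only [mem_iUnion]
    exact ⟨u', hu', hy, hy'⟩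
  refine measure_mono_null hsub ?_
  refine (measure_biUnion_null_iff P.N.countable_toSet).mpr ?_
  intro u' hu'
  exact inter_faces_null hPc hP.2 hu1 (P.unit u' hu') (fun h => huU (h ▸ hu'))

theorem facet_of_mem {u : E} (hu : u ∈ P.N) : Facet P.body u := by
  refine ⟨P.unit u hu, ?_⟩
  obtain ⟨z, hz, hz'⟩ := P.real u hu
  obtain ⟨W, hWo, hzW, hW⟩ := fc_near hu hz hz'
  have hzu : ⟪u, z⟫ = P.h u := (hz' u hu).2 rfl
  have huu := inner_one (P.unit u hu)
  have hopen : IsOpen (W ∩ {x : E | 0 < ⟪u, x⟫ - P.h u ∧ ⟪u, x⟫ - P.h u < 1}) := by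
    refine hWo.inter ?_
    have h1 : {x : E | 0 < ⟪u, x⟫ - P.h u ∧ ⟪u, x⟫ - P.h u < 1} =
        (fun x : E => ⟪u, x⟫ - P.h u) ⁻¹' Ioo 0 1 := rfl
    rw [h1]
    exact isOpen_Ioo.preimage (by fun_prop)
  have hne : (W ∩ {x : E | 0 < ⟪u, x⟫ - P.h u ∧ ⟪u, x⟫ - P.h u < 1}).Nonempty := by
    have hcont : Tendsto (fun t : ℝ => z + t • u) (𝓝[>] 0) (𝓝 z) := by
      have h1 : Continuous (fun t : ℝ => z + t • u) := by fun_prop
      have h2 := h1.tendsto 0
      rw [zero_smul, add_zero] at h2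
      exact h2.mono_left nhdsWithin_le_nhds
    have h3 : ∀ᶠ t : ℝ in 𝓝[>] 0, z + t • u ∈ W := hcont.eventually (hWo.mem_nhds hzW)
    have h4 : ∀ᶠ t : ℝ in 𝓝[>] 0, t ∈ Ioo (0 : ℝ) 1 := Ioo_mem_nhdsGT one_pos
    obtain ⟨t, ht, ht'⟩ := (h3.and h4).exists
    refine ⟨z + t • u, ht, ?_⟩
    have : ⟪u, z + t • u⟫ - P.h u = t := by
      rw [inner_add_right, inner_smul_right, huu, hzu]; ring
    show 0 < ⟪u, z + t • u⟫ - P.h u ∧ ⟪u, z + t • u⟫ - P.h u < 1
    rw [this]
    exact ht'
  have hpos := hopen.measure_pos (volume : Measure E) hne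
  refine (hpos.trans_le (measure_mono ?_)).ne'
  rintro x ⟨hxW, hx0, hx1⟩
  refine ⟨x - (⟪u, x⟫ - P.h u) • u, ?_, ⟪u, x⟫ - P.h u, hx0.le, hx1.le, by abel⟩
  rw [face_body hu]
  exact hW x hxW

/-- the face in a direction inside the open cone of a ridge -/
theorem face_cone {y s t w : E} (hy : y ∈ P.body) (hact : P.act y = {s, t}) {α β : ℝ} (hα : 0 < α)
    (hβ : 0 < β) (hw : w = α • s + β • t) : face P.body w = P.mf y := by
  have hs : s ∈ P.act y := by rw [hact]; exact mem_insert _ _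
  have ht : t ∈ P.act y := by rw [hact]; exact mem_insert_of_mem _ rfl
  have hval : ∀ z : E, ⟪w, z⟫ = α * ⟪s, z⟫ + β * ⟪t, z⟫ := by
    intro z
    rw [hw, inner_add_left, real_inner_smul_left, real_inner_smul_left]
  have hmax : ∀ z ∈ P.body, ⟪w, z⟫ ≤ ⟪w, y⟫ := by
    intro z hz
    rw [hval, hval, hs.2, ht.2]
    have h1 := mul_le_mul_of_nonneg_left (hz s hs.1) hα.le
    have h2 := mul_le_mul_of_nonneg_left (hz t ht.1) hβ.le
    linarith
  rw [mf_eq hy]
  ext z
  constructor
  · rintro ⟨hz, hz'⟩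
    refine ⟨hz, ?_⟩
    have h1 := le_antisymm (hmax z hz) (hz' y hy)
    rw [hval, hval, hs.2, ht.2] at h1
    have h2 := mul_le_mul_of_nonneg_left (hz s hs.1) hα.le
    have h3 := mul_le_mul_of_nonneg_left (hz t ht.1) hβ.le
    have h4 : ⟪s, z⟫ = P.h s := mul_left_cancel₀ hα.ne' (by linarith)
    have h5 : ⟪t, z⟫ = P.h t := mul_left_cancel₀ hβ.ne' (by linarith)
    intro u hu
    rw [hact] at hu
    rcases hu with rfl | hu
    · exact ⟨hs.1, h4⟩
    · rw [mem_singleton_iff.1 hu]
      exact ⟨ht.1, h5⟩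
  · rintro ⟨hz, hz'⟩
    refine ⟨hz, fun z' hz'' => ?_⟩
    have h1 : ⟪w, z⟫ = ⟪w, y⟫ := by
      rw [hval, hval, hs.2, ht.2, (hz' hs).2, (hz' ht).2]
    rw [h1]
    exact hmax z' hz''

theorem ev_not_mem {w w' a : E} (hw : ‖w‖ = 1) (hw' : ‖w'‖ = 1) (hww : ⟪w, w'⟫ = 0) :
    ∀ᶠ e : ℝ in 𝓝[>] 0, ∀ r : ℝ, Real.cos e • w + Real.sin e • w' ≠ r • a := by
  by_cases hwa : w ∈ Submodule.span ℝ {a}
  · have h1 : ∀ᶠ e : ℝ in 𝓝[>] 0, e ∈ Ioo (0 : ℝ) Real.pi := Ioo_mem_nhdsGT Real.pi_pos
    filter_upwards [h1] with e he r hr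
    have hs : 0 < Real.sin e := Real.sin_pos_of_pos_of_lt_pi he.1 he.2
    obtain ⟨k, hk⟩ := Submodule.mem_span_singleton.1 hwa
    -- w' is a multiple of a
    have h2 : Real.sin e • w' = (r - Real.cos e * k) • a := by
      rw [sub_smul, ← hr, mul_smul, hk]; abel
    have h3 : Real.sin e * ⟪w', w'⟫ = (r - Real.cos e * k) * ⟪a, w'⟫ := by
      rw [← real_inner_smul_left, h2, real_inner_smul_left]
    rw [inner_one hw', mul_one] at h3
    have h4 : k * ⟪a, w'⟫ = 0 := by
      rw [← real_inner_smul_left, hk, hww]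
    rcases mul_eq_zero.1 h4 with h5 | h5
    · rw [h5, zero_smul] at hk
      rw [← hk, norm_zero] at hw
      exact zero_ne_one hw
    · rw [h5, mul_zero] at h3
      linarith
  · have hcl : IsClosed ((Submodule.span ℝ {a} : Submodule ℝ E) : Set E) :=
      Submodule.closed_of_finiteDimensional _
    have hcont : Tendsto (fun e : ℝ => Real.cos e • w + Real.sin e • w') (𝓝[>] 0) (𝓝 w) := by
      have h1 : Continuous (fun e : ℝ => Real.cos e • w + Real.sin e • w') := by fun_prop
      have h2 := h1.tendsto 0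
      simp only [Real.cos_zero, Real.sin_zero, one_smul, zero_smul, add_zero] at h2
      exact h2.mono_left nhdsWithin_le_nhds
    have h3 := hcont.eventually (hcl.isOpen_compl.mem_nhds hwa)
    filter_upwards [h3] with e he r hr
    apply he
    rw [hr]
    exact Submodule.smul_mem _ _ (Submodule.mem_span_singleton_self a)

/-- the iterated faces in the plane of a belt -/
theorem iface_belt (h3 : Module.finrank ℝ E = 3) (hP : Polytope P.body) {y0 a x : E} (hy : y0 ∈ P.body)
    (hax : a ≠ x) (h : P.act y0 = {a, x}) (hB : Belt P a y0) {w w' : E} (hw : ‖w‖ = 1)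
    (hw' : ‖w'‖ = 1) (hww : ⟪w, w'⟫ = 0) (hwm : w ∈ Submodule.span ℝ {a, x})
    (hwm' : w' ∈ Submodule.span ℝ {a, x}) :
    ∃ y ∈ P.body, face (face P.body w) w' = P.mf y ∧ Cong P y0 y := by
  obtain ⟨s, t, -, -, -, -, -, hall⟩ := belt_norm h3 hy hax h hB
  obtain ⟨e, h1, h2, h3', h4, h5⟩ := ((face_rot hP w w').and
    ((ev_not_mem (a := a) hw hw' hww).and ((ev_not_mem (a := s) hw hw' hww).and
      ((ev_not_mem (a := t) hw hw' hww).and (ev_not_mem (a := 0) hw hw' hww))))).exists
  obtain ⟨u, v, hf, -, α, β, hα, hβ, huv⟩ := hall (Real.cos e • w + Real.sin e • w')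
    (Submodule.add_mem _ (Submodule.smul_mem _ _ hwm) (Submodule.smul_mem _ _ hwm'))
    (fun h0 => h5 0 (by rw [h0, smul_zero])) h2 h3' h4
  obtain ⟨-, y, hyb, hact, hc⟩ := hf
  refine ⟨y, hyb, ?_, hc⟩
  rw [← h1]
  exact face_cone hyb hact hα hβ huv

theorem mu_cong {y y' : E} (h : Cong P y y') :
    μHE[Module.finrank ℝ E - 2] (P.mf y') = μHE[Module.finrank ℝ E - 2] (P.mf y) := by
  obtain ⟨c, h | h⟩ := h
  · rw [h]
    have hi : Isometry (fun z : E => z + c) := isometry_add_right c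
    exact hi.euclideanHausdorffMeasure_image _
  · rw [h]
    have hi : Isometry (fun z : E => c - z) := by
      refine Isometry.of_dist_eq fun z z' => ?_
      rw [dist_sub_left]
    exact hi.euclideanHausdorffMeasure_image _

theorem gv_belt (h3 : Module.finrank ℝ E = 3) (hP : Polytope P.body) {y0 a x : E} (hy : y0 ∈ P.body)
    (hax : a ≠ x) (h : P.act y0 = {a, x}) (hB : Belt P a y0) {w w' : E} (hw : ‖w‖ = 1)
    (hw' : ‖w'‖ = 1) (hww : ⟪w, w'⟫ = 0) (hwm : w ∈ Submodule.span ℝ {a, x})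
    (hwm' : w' ∈ Submodule.span ℝ {a, x}) :
    gv P.body w w' = μHE[Module.finrank ℝ E - 2] (P.mf y0) := by
  obtain ⟨y, -, h1, h2⟩ := iface_belt h3 hP hy hax h hB hw hw' hww hwm hwm'
  unfold gv
  rw [h1, mu_cong h2]

/-- an edge of the facet `a` gives a ridge -/
theorem exists_ridge (h3 : Module.finrank ℝ E = 3) (hP : Polytope P.body) {a v : E} (ha : a ∈ P.N)
    (hv : ‖v‖ = 1) (hav : ⟪a, v⟫ = 0) (hg : gv P.body a v ≠ 0) :
    ∃ y0 ∈ P.body, ∃ x : E, a ≠ x ∧ P.act y0 = {a, x} ∧ x ∈ Submodule.span ℝ {a, v} ∧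
      v ∈ Submodule.span ℝ {a, x} := by
  have ha1 := P.unit a ha
  have hc := hP.compact
  -- two points of the edge
  have hsub : ¬ (face (face P.body a) v).Subsingleton := by
    intro hs
    apply hg
    unfold gv
    rw [h3]
    have h1 : (face (face P.body a) v).Countable := hs.countable
    rw [Measure.euclideanHausdorffMeasure_def, Measure.smul_apply]
    have : NullSingletonClass (μH[((3 - 2 : ℕ) : ℝ)] : Measure E) :=
      Measure.nullSingletonClass_hausdorff E (by norm_num)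
    rw [h1.measure_zero, smul_zero]
  rw [Set.not_subsingleton_iff] at hsub
  obtain ⟨x, hx, x', hx', hne⟩ := hsub
  set m : E := (1 / 2 : ℝ) • x + (1 / 2 : ℝ) • x' with hm
  have hconvF : Convex ℝ (face (face P.body a) v) := face_convex (face_convex hP.conv a) v
  have hmF : m ∈ face (face P.body a) v :=
    hconvF hx hx' (by norm_num) (by norm_num) (by norm_num)
  have hmfc : m ∈ P.fc a := by rw [← face_body ha]; exact hmF.1
  have hmb : m ∈ P.body := hmfc.1
  have hxb : x ∈ P.body := hx.1.1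
  have hxb' : x' ∈ P.body := hx'.1.1
  have hg0 : x' - x ≠ 0 := sub_ne_zero.2 hne.symm
  have hperp : ∀ u ∈ P.act m, ⟪u, x' - x⟫ = 0 := by
    intro u hu
    have h1 := hu.2
    rw [hm, inner_add_right, inner_smul_right, inner_smul_right] at h1
    have h2 := hxb u hu.1
    have h3 := hxb' u hu.1
    rw [inner_sub_right]
    linarith
  have haact : a ∈ P.act m := ⟨ha, hmfc.2⟩
  have hvg : ⟪v, x' - x⟫ = 0 := by
    rw [inner_sub_right]
    have h1 := hx.2 x' hx'.1
    have h2 := hx'.2 x hx.1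
    linarith
  have hag := hperp a haact
  -- the unit vector
  set g : E := (‖x' - x‖⁻¹) • (x' - x) with hgdef
  have hgn : ‖g‖ = 1 := by
    rw [hgdef, norm_smul, norm_inv, norm_norm, inv_mul_cancel₀ (norm_pos_iff.2 hg0).ne']
  have hperp' : ∀ w : E, ⟪w, x' - x⟫ = 0 → ⟪w, g⟫ = 0 := by
    intro w hw
    rw [hgdef, inner_smul_right, hw, mul_zero]
  -- a second active normal
  have hsec : ∃ z ∈ P.act m, z ≠ a := by
    by_contra hcon
    push Not at hcon
    have h1 := small_step (g := v) hmb (fun u hu => by rw [hcon u hu]; exact hav)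
    have h2 : ∀ᶠ ε : ℝ in 𝓝[>] 0, m + ε • v ∈ P.body := h1.filter_mono nhdsWithin_le_nhds
    obtain ⟨ε, hε, hε0⟩ := (h2.and self_mem_nhdsWithin).exists
    have hε0' : (0 : ℝ) < ε := hε0
    have h4 : m + ε • v ∈ face P.body a := by
      rw [face_body ha]
      refine ⟨hε, ?_⟩
      rw [inner_add_right, inner_smul_right, hav, mul_zero, add_zero]
      exact hmfc.2
    have h5 := hmF.2 _ h4
    rw [inner_add_right, inner_smul_right, inner_one hv] at h5
    linarith
  obtain ⟨z, hz, hza⟩ := hsec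
  have hzg : ⟪z, g⟫ = 0 := hperp' z (hperp z hz)
  have hmem : ∀ u ∈ P.act m, u ∈ Submodule.span ℝ {a, v} := fun u hu =>
    mem_span_of_perp h3 ha1 hv hgn hav (hperp' a hag) (hperp' v hvg) (hperp' u (hperp u hu))
  have hzm := hmem z hz
  have hli : LinearIndependent ℝ ![a, z] := act_pair hmb haact hz hza.symm
  have hvz : v ∈ Submodule.span ℝ {a, z} := by
    obtain ⟨p, q, hpq⟩ := Submodule.mem_span_pair.1 hzm
    have hq : q ≠ 0 := by
      rintro rfl
      rw [LinearIndependent.pair_iff] at hli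
      have := hli p (-1) (by rw [← hpq, zero_smul, add_zero, neg_smul, one_smul]; abel)
      have h2 : (-1 : ℝ) = 0 := this.2
      norm_num at h2
    rw [Submodule.mem_span_pair]
    refine ⟨-(q⁻¹ * p), q⁻¹, ?_⟩
    rw [← hpq, smul_add, smul_smul, smul_smul, inv_mul_cancel₀ hq, one_smul, neg_smul]
    abel
  refine ⟨m, hmb, z, hza.symm, ?_, hzm, hvz⟩
  -- only two active normals
  apply Subset.antisymm
  · intro u hu
    by_contra hcon
    rw [mem_insert_iff, mem_singleton_iff, not_or] at hcon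
    have hli3 := act_three hmb haact hz hu hza.symm (fun h => hcon.1 h.symm) (fun h => hcon.2 h.symm)
    have hum := hmem u hu
    -- u in the span of a and z
    have hvz' : u ∈ Submodule.span ℝ {a, z} := by
      have hle : Submodule.span ℝ {a, v} ≤ Submodule.span ℝ {a, z} := by
        rw [Submodule.span_le]
        rintro w (rfl | hw)
        · exact Submodule.subset_span (mem_insert _ _)
        · rw [mem_singleton_iff.1 hw]; exact hvz
      exact hle hum
    obtain ⟨p, q, hpq⟩ := Submodule.mem_span_pair.1 hvz'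
    have h5 := Fintype.linearIndependent_iff.1 hli3 ![p, q, -1] (by
      rw [Fin.sum_univ_three]
      simp only [Matrix.cons_val_zero, Matrix.cons_val_one, Matrix.cons_val_two, Matrix.head_cons,
        Matrix.tail_cons, Matrix.cons_val]
      rw [← hpq, neg_smul, one_smul]
      abel) 2
    simp at h5
  · rintro u (rfl | hu)
    · exact haact
    · rw [mem_singleton_iff.1 hu]; exact hz

theorem face_translate (F : Set E) (c v : E) :
    face ((fun z => z + c) '' F) v = (fun z => z + c) '' face F v := by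
  ext x
  constructor
  · rintro ⟨⟨z, hz, rfl⟩, h2⟩
    refine ⟨z, ⟨hz, fun y hy => ?_⟩, rfl⟩
    have := h2 (y + c) ⟨y, hy, rfl⟩
    simp only [inner_add_right] at this
    linarith
  · rintro ⟨z, ⟨hz, h2⟩, rfl⟩
    refine ⟨⟨z, hz, rfl⟩, ?_⟩
    rintro _ ⟨y, hy, rfl⟩
    have := h2 y hy
    simp only [inner_add_right]
    linarith

/-- THE BRIDGE -/
theorem var3_of_dat (h3 : Module.finrank ℝ E = 3) (hP : Polytope P.body) {a : E} (D : Dat P a) :
    Var3 P.body a where
  fa := facet_of_mem D.mem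
  neg := by
    intro v hv hav
    obtain ⟨hN, c, hc⟩ := D.tra
    unfold gv
    rw [face_body hN, face_body D.mem]
    have h1 : P.fc (-a) = (fun z => z + c) '' P.fc a := by
      ext z
      constructor
      · intro hz
        refine ⟨z - c, ?_, by simp⟩
        rw [hc, sub_add_cancel]
        exact hz
      · rintro ⟨z', hz', rfl⟩
        exact (hc z').1 hz'
    rw [h1, face_translate]
    exact (isometry_add_right c).euclideanHausdorffMeasure_image _
  circ := by
    intro v hv hav hg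
    obtain ⟨y0, hy, x, hax, hact, hxm, hvm⟩ := exists_ridge h3 hP D.mem hv hav hg
    have hB := D.belt a (Or.inl rfl) y0 hy x hax hact
    have ma : ∀ z : E, a ∈ Submodule.span ℝ {a, z} := fun z => Submodule.subset_span (mem_insert _ _)
    have hle1 : Submodule.span ℝ {a, v} ≤ Submodule.span ℝ {a, x} := by
      rw [Submodule.span_le]
      rintro w (rfl | hw)
      · exact ma x
      · rw [mem_singleton_iff.1 hw]; exact hvm
    have hle2 : Submodule.span ℝ {a, x} ≤ Submodule.span ℝ {a, v} := by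
      rw [Submodule.span_le]
      rintro w (rfl | hw)
      · exact ma v
      · rw [mem_singleton_iff.1 hw]; exact hxm
    refine ⟨?_, ?_⟩
    · intro w hw w' hw' hwn hwn' hww
      rw [gv_belt h3 hP hy hax hact hB hwn hwn' hww (hle1 hw) (hle1 hw'),
        gv_belt h3 hP hy hax hact hB (P.unit a D.mem) hv hav (ma x) hvm]
    · obtain ⟨s, t, ms, mt, l1, l2, -, hall⟩ := belt_aux hy hax hact hB
      have nm : ∀ z : E, LinearIndependent ℝ ![a, z] → z ∉ Submodule.span ℝ {a} := by
        intro z hl hz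
        obtain ⟨k, hk⟩ := Submodule.mem_span_singleton.1 hz
        rw [LinearIndependent.pair_iff] at hl
        have := hl k (-1) (by rw [← hk, neg_smul, one_smul]; abel)
        have h2 : (-1 : ℝ) = 0 := this.2
        norm_num at h2
      refine ⟨s, hle2 ms, t, hle2 mt, nm s l1, nm t l2, fun w hw hf => ?_⟩
      have hwN := mem_of_facet hP hf
      have hw1 := P.unit w hwN
      obtain ⟨u, u', hfl, -, su, su', α, β, hα, hβ, hw'⟩ := hall w (hle1 hw)
      have hun := P.unit u (fl_N hfl).1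
      have hun' := P.unit u' (fl_N hfl).2
      have one : ∀ (γ : ℝ) (z : E), 0 ≤ γ → ‖z‖ = 1 → w = γ • z → w = z := by
        intro γ z hγ hz h
        have h1 := congrArg norm h
        rw [norm_smul, hz, hw1, mul_one, Real.norm_of_nonneg hγ] at h1
        rw [h, ← h1, one_smul]
      rcases hα.eq_or_lt with h0 | h0
      · have h1 : w = u' := one β u' hβ hun' (by rw [hw', ← h0, zero_smul, zero_add])
        rw [h1]
        exact su'
      · rcases hβ.eq_or_lt with h0' | h0'
        · have h1 : w = u := one α u hα hun (by rw [hw', ← h0', zero_smul, add_zero])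
          rw [h1]
          exact su
        · exact (fl_cone hfl hwN h0 h0' hw').elim

theorem tiles_of_isFF {T : Set (ℝ × E)} (hT : IsFF P T) : Tiles P.body := by
  refine ⟨(fun τ => X τ '' P.body) '' T, ?_, ?_, ?_⟩
  · rintro _ ⟨τ, hτ, rfl⟩
    refine ⟨τ.2, ?_⟩
    rcases hT.sign τ hτ with h | h
    · left
      refine image_congr fun z _ => ?_
      unfold X
      rw [h, one_smul, add_comm]
    · right
      refine image_congr fun z _ => ?_
      unfold X
      rw [h, neg_smul, one_smul]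
      abel
  · rw [sUnion_eq_univ_iff]
    intro x
    obtain ⟨τ, hτ, hx⟩ := hT.cover x
    exact ⟨_, ⟨τ, hτ, rfl⟩, hx⟩
  · rintro _ ⟨τ, hτ, rfl⟩ _ ⟨σ, hσ, rfl⟩ hne
    exact hT.disj τ hτ σ hσ fun h => hne (by rw [h])

/-- END OF (C), dimension three: a facet which varies makes the polytope centrally symmetric -/
theorem csym_of_dat (h3 : Module.finrank ℝ E = 3) (hP : Polytope P.body) {T : Set (ℝ × E)}
    (hT : IsFF P T) {a : E} (D : Dat P a) : ∃ c : E, ∀ z ∈ P.body, c - z ∈ P.body :=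
  csym_of_var3 h3 hP (tiles_of_isFF hT) (var3_of_dat h3 hP D)

end Pool.FF85.D3
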