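import Pool.Agent.FF85.D3.Defs
import Pool.Agent.PT56.Pyr
import Pool.Agent.PT56.Var

set_option autoImplicit false
set_option linter.unusedSectionVars false

/-!
# FF85/D3/Close: the closing relation

`closing`: first `0 ∈ interior K`. `pyr`: `∑ spt K u * vol_u ≤ d V`; `var_upper` with `L = K` (`K + t K = (1 + t) K`):
`d V ≤ ∑ spt K u * vol_u`. The same for the translates `K - x`: `spt (K - x) u = spt K u - ⟪u, x⟫` and the faces
are translates, so `∑ ⟪u, x⟫ vol_u ≥ 0` for all `x` in the interior.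
`delta_zero`: `closing` for `secQ P u`; the terms of `v` and `-v` cancel
except for `v` on the two lines, and `p`, `q` are independent.
-/

namespace Pool.FF85.D3

open Set Filter Topology MeasureTheory Pool.PT56
open Pool.Agent.H14Belt (face)
open scoped RealInnerProductSpace ENNReal Pointwise

section
variable {F : Type} [NormedAddCommGroup F] [InnerProductSpace ℝ F] [FiniteDimensional ℝ F]
    [MeasurableSpace F] [BorelSpace F]

theorem face_sh (K : Set F) (x0 u : F) : face (sh K x0) u = sh (face K u) x0 := by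
  ext x
  simp only [face, Set.mem_setOf_eq, mem_sh]
  constructor
  · rintro ⟨h1, h2⟩
    refine ⟨h1, fun y hy => ?_⟩
    have := h2 (y - x0) (by simpa using hy)
    rw [inner_sub_right] at this
    rw [inner_add_right]
    linarith
  · rintro ⟨h1, h2⟩
    refine ⟨h1, fun y hy => ?_⟩
    have := h2 (y + x0) hy
    rw [inner_add_right, inner_add_right] at this
    linarith

theorem prism_sh (G : Set F) (x0 u : F) : prism (sh G x0) u = sh (prism G u) x0 := by
  ext x
  simp only [prism, Set.mem_setOf_eq, mem_sh]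
  constructor
  · rintro ⟨y, hy, s, h0, h1, rfl⟩
    exact ⟨y + x0, hy, s, h0, h1, by abel⟩
  · rintro ⟨y, hy, s, h0, h1, h2⟩
    refine ⟨y - x0, by simpa using hy, s, h0, h1, ?_⟩
    rw [← add_right_cancel_iff (a := x0), h2]
    abel

theorem vol_sh (G : Set F) (x0 : F) : volume (sh G x0) = volume G :=
  measure_preimage_add_right volume x0 G

theorem vol_face_sh (K : Set F) (x0 u : F) :
    volume (prism (face (sh K x0) u) u) = volume (prism (face K u) u) := by
  rw [face_sh, prism_sh, vol_sh]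

theorem sh_compact {K : Set F} (hK : IsCompact K) (x0 : F) : IsCompact (sh K x0) := by
  rw [sh_eq_image]
  exact hK.image (by fun_prop)

theorem spt_sh_eq {K : Set F} (hK : IsCompact K) (hne : K.Nonempty) (x0 u : F) :
    spt (sh K x0) u = spt K u - ⟪u, x0⟫ := by
  apply le_antisymm
  · unfold spt
    apply csSup_le
    · obtain ⟨z, hz⟩ := hne
      exact ⟨_, z - x0, by rw [mem_sh]; simpa using hz, rfl⟩
    · rintro _ ⟨z, hz, rfl⟩
      have h1 := le_spt hK (u := u) (mem_sh.1 hz)
      rw [inner_add_right] at h1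
      have h2 : ⟪u, z⟫ ≤ spt K u - ⟪u, x0⟫ := by linarith
      exact h2
  · have := spt_sh hK hne x0 u
    linarith

theorem sum_ge {K : Set F} (hK : Polytope K) (h0 : (0 : F) ∈ interior K) (U : Finset F)
    (hU1 : ∀ u ∈ U, ‖u‖ = 1) (hU : ∀ x, (∀ u ∈ U, ⟪u, x⟫ ≤ spt K u) → x ∈ K) :
    Module.finrank ℝ F * (volume K).toReal ≤
      ∑ u ∈ U, spt K u * (volume (prism (face K u) u)).toReal := by
  have hc := hK.isCompact'
  have hconv := hK.convex'
  have hne : K.Nonempty := ⟨0, interior_subset h0⟩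
  apply le_of_forall_pos_le_add
  intro ε hε
  have hvar := var_upper hc hne hc (interior_subset h0) U hU1 hU hε
  obtain ⟨t, ht, ht0⟩ := (hvar.and self_mem_nhdsWithin).exists
  have ht0' : (0 : ℝ) < t := ht0
  have h1 : K + t • K = (1 + t) • K := by
    rw [hconv.add_smul zero_le_one ht0'.le, one_smul]
  rw [h1, Measure.addHaar_smul, ENNReal.toReal_mul, ENNReal.toReal_ofReal (abs_nonneg _),
    abs_of_nonneg (pow_nonneg (by linarith) _)] at ht
  have hbern : 1 + (Module.finrank ℝ F : ℝ) * t ≤ (1 + t) ^ Module.finrank ℝ F :=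
    one_add_mul_le_pow (by linarith) _
  have hV : 0 ≤ (volume K).toReal := ENNReal.toReal_nonneg
  have h2 := mul_le_mul_of_nonneg_right hbern hV
  have h3 : t * (Module.finrank ℝ F * (volume K).toReal) ≤
      t * (∑ u ∈ U, spt K u * (volume (prism (face K u) u)).toReal + ε) := by
    linarith
  exact le_of_mul_le_mul_left h3 ht0'

theorem closing {K : Set F} (hK : Polytope K) :
    ∃ U : Finset F, (∀ u, u ∈ U ↔ Facet K u) ∧
      ∑ u ∈ U, (volume (prism (face K u) u)).toReal • u = 0 := by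
  obtain ⟨x0, hx0⟩ := hK.2
  have hK0 := hK.sh x0
  have h0 := zero_mem_interior_sh hx0
  obtain ⟨U, hU, hrep⟩ := hrepF hK0
  have hU1 : ∀ u ∈ U, ‖u‖ = 1 := fun u hu => ((hU u).1 hu).1
  have hge := sum_ge hK0 h0 U hU1 (fun x hx => (hrep x).2 hx)
  have hc0 := hK0.isCompact'
  have hne0 : (sh K x0).Nonempty := ⟨0, interior_subset h0⟩
  refine ⟨U, fun u => ?_, ?_⟩
  · rw [hU]
    unfold Facet
    rw [vol_face_sh]
  have hsum : ∀ x ∈ interior (sh K x0),
      0 ≤ ∑ u ∈ U, ⟪u, x⟫ * (volume (prism (face K u) u)).toReal := by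
    intro x hx
    have hK1 := hK0.sh x
    have h1 := pyr hK1.isCompact' hK1.convex' (zero_mem_interior_sh hx) U hU1
    rw [vol_sh] at h1
    have h2 : ∀ u ∈ U, spt (sh (sh K x0) x) u * (volume (prism (face (sh (sh K x0) x) u) u)).toReal =
        spt (sh K x0) u * (volume (prism (face (sh K x0) u) u)).toReal -
          ⟪u, x⟫ * (volume (prism (face K u) u)).toReal := by
      intro u _
      rw [spt_sh_eq hc0 hne0, vol_face_sh, vol_face_sh]
      ring
    rw [Finset.sum_congr rfl h2, Finset.sum_sub_distrib] at h1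
    linarith
  set s : F := ∑ u ∈ U, (volume (prism (face K u) u)).toReal • u with hs
  have hin : ∀ x : F, ⟪s, x⟫ = ∑ u ∈ U, ⟪u, x⟫ * (volume (prism (face K u) u)).toReal := by
    intro x
    rw [hs, sum_inner]
    refine Finset.sum_congr rfl fun u _ => ?_
    rw [real_inner_smul_left]
    ring
  by_contra hne
  -- x = -t s
  have hcont : Tendsto (fun t : ℝ => -(t • s)) (𝓝[>] 0) (𝓝 0) := by
    have h1 : Continuous (fun t : ℝ => -(t • s)) := by fun_prop
    have h2 := h1.tendsto 0
    rw [zero_smul, neg_zero] at h2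
    exact h2.mono_left nhdsWithin_le_nhds
  have hev : ∀ᶠ t : ℝ in 𝓝[>] 0, -(t • s) ∈ interior (sh K x0) :=
    hcont.eventually (isOpen_interior.mem_nhds h0)
  obtain ⟨t, ht, ht0⟩ := (hev.and self_mem_nhdsWithin).exists
  have ht0' : (0 : ℝ) < t := ht0
  have h3 := hsum _ ht
  rw [← hin, inner_neg_right, real_inner_smul_right, real_inner_self_eq_norm_sq] at h3
  have h4 : 0 < ‖s‖ := norm_pos_iff.2 hne
  have h5 : 0 < t * ‖s‖ ^ 2 := by positivity
  linarith

end

variable {E : Type} [NormedAddCommGroup E] [InnerProductSpace ℝ E] [FiniteDimensional ℝ E]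
  [MeasurableSpace E] [BorelSpace E]

/-- `gv` as a prism volume in the section -/
theorem gv_eq_prism {P : Set E} (hP : IsCompact P) {u : E} (hu : ‖u‖ = 1) {v : (ℝ ∙ u)ᗮ}
    (hv : ‖v‖ = 1) : gv P u (v : E) = volume (prism (face (secQ P u) v) v) := by
  have hQ := secQ_compact hP hu
  rw [gv_eq hP hu v, vol_prism_muHE hv (face_compact hQ v) (fun x hx => ((mem_face_iff hQ).mp hx).2)]

theorem unit_in_line {p v v0 : E} (hv : ‖v‖ = 1) (hv0 : ‖v0‖ = 1) (h : v ∈ Submodule.span ℝ {p})
    (h0 : v0 ∈ Submodule.span ℝ {p}) : v = v0 ∨ v = -v0 := by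
  rw [Submodule.mem_span_singleton] at h h0
  obtain ⟨s, rfl⟩ := h
  obtain ⟨t, rfl⟩ := h0
  have hp : p ≠ 0 := by
    rintro rfl
    simp at hv
  have hp' : 0 < ‖p‖ := norm_pos_iff.2 hp
  rw [norm_smul, Real.norm_eq_abs] at hv hv0
  have h1 : |s| = |t| := by
    have : |s| * ‖p‖ = |t| * ‖p‖ := hv.trans hv0.symm
    exact mul_right_cancel₀ hp'.ne' this
  rcases abs_eq_abs.1 h1 with h2 | h2
  · left; rw [h2]
  · right; rw [h2, neg_smul]

theorem no_delta {P : Set E} (hP : Polytope P) {u p q : E} (hf : Facet P u)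
    (hpq : LinearIndependent ℝ ![p, q])
    (hl : ∀ v, ‖v‖ = 1 → ⟪u, v⟫ = 0 → gv P u v ≠ gv P u (-v) →
      v ∈ Submodule.span ℝ {p} ∨ v ∈ Submodule.span ℝ {q}) {v0 : E} (hv0 : ‖v0‖ = 1)
    (huv0 : ⟪u, v0⟫ = 0) (hne : gv P u v0 ≠ gv P u (-v0)) (hp : v0 ∈ Submodule.span ℝ {p}) :
    False := by
  classical
  have hu := hf.1
  have hc := hP.compact
  obtain ⟨U, hU, hsum⟩ := closing (secQ_polytope hP hf)
  let U' : Finset (ℝ ∙ u)ᗮ := U ∪ U.image (fun v => -v)
  have hU'neg : ∀ v, v ∈ U' ↔ -v ∈ U' := by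
    intro v
    simp only [U', Finset.mem_union, Finset.mem_image]
    constructor
    · rintro (h | ⟨w, hw, rfl⟩)
      · exact Or.inr ⟨v, h, rfl⟩
      · left; rwa [neg_neg]
    · rintro (h | ⟨w, hw, hwv⟩)
      · exact Or.inr ⟨-v, h, neg_neg v⟩
      · left
        have : w = v := neg_injective hwv
        rwa [← this]
  have hU'1 : ∀ v ∈ U', ‖v‖ = 1 := by
    intro v hv
    simp only [U', Finset.mem_union, Finset.mem_image] at hv
    rcases hv with h | ⟨w, hw, rfl⟩
    · exact ((hU v).1 h).1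
    · rw [norm_neg]
      exact ((hU w).1 hw).1
  let f : (ℝ ∙ u)ᗮ → ℝ := fun v => (gv P u (v : E)).toReal
  have hfin : ∀ v : (ℝ ∙ u)ᗮ, ‖v‖ = 1 → gv P u (v : E) ≠ ∞ := fun v hv =>
    (gv_lt_top hc hu hv (PT57.mem_perp_iff.mp v.2)).ne
  -- the sum over U'
  have hsum' : ∑ v ∈ U', f v • v = 0 := by
    rw [← hsum]
    symm
    have h1 : ∑ v ∈ U, (volume (prism (face (secQ P u) v) v)).toReal • v = ∑ v ∈ U, f v • v := by
      refine Finset.sum_congr rfl fun v hv => ?_
      show _ = (gv P u (v : E)).toReal • v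
      rw [gv_eq_prism hc hu ((hU v).1 hv).1]
    rw [h1]
    refine Finset.sum_subset Finset.subset_union_left fun v hv hvU => ?_
    have hv1 := hU'1 v hv
    have h2 : volume (prism (face (secQ P u) v) v) = 0 := by
      by_contra hcon
      exact hvU ((hU v).2 ⟨hv1, hcon⟩)
    show (gv P u (v : E)).toReal • v = 0
    rw [gv_eq_prism hc hu hv1, h2]
    simp
  -- the antisymmetric sum
  have hanti : ∑ v ∈ U', (f v - f (-v)) • v = 0 := by
    have h1 : ∑ v ∈ U', f (-v) • (-v) = ∑ v ∈ U', f v • v := by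
      refine Finset.sum_bij (fun v _ => -v) (fun v hv => (hU'neg v).1 hv)
        (fun v _ w _ h => neg_injective h) (fun w hw => ⟨-w, (hU'neg w).1 hw, neg_neg w⟩)
        (fun v _ => rfl)
    have h2 : ∑ v ∈ U', (f v - f (-v)) • v = ∑ v ∈ U', f v • v + ∑ v ∈ U', f (-v) • (-v) := by
      rw [← Finset.sum_add_distrib]
      refine Finset.sum_congr rfl fun v _ => ?_
      rw [sub_smul, smul_neg, sub_eq_add_neg]
    rw [h2, h1, hsum', add_zero]
  -- the functional
  have hq0 : q ≠ 0 := by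
    rintro rfl
    rw [LinearIndependent.pair_iff] at hpq
    exact one_ne_zero (hpq 0 1 (by simp)).2
  have hqq : 0 < ⟪q, q⟫ := by
    rw [real_inner_self_eq_norm_sq]
    have := norm_pos_iff.2 hq0
    positivity
  set y : E := p - (⟪q, p⟫ / ⟪q, q⟫) • q with hy
  have hyq : ⟪q, y⟫ = 0 := by
    rw [hy, inner_sub_right, real_inner_smul_right]
    field_simp
    ring
  have hy0 : y ≠ 0 := by
    intro h
    rw [LinearIndependent.pair_iff] at hpq
    have h1 := hpq 1 (-(⟪q, p⟫ / ⟪q, q⟫)) (by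
      rw [one_smul, neg_smul, ← sub_eq_add_neg]
      exact h)
    exact one_ne_zero h1.1
  have hyp : ⟪p, y⟫ ≠ 0 := by
    have h1 : ⟪p, y⟫ = ⟪y, y⟫ := by
      conv_rhs => rw [hy, inner_sub_left, real_inner_smul_left, ← hy, hyq, mul_zero, sub_zero]
    rw [h1, real_inner_self_eq_norm_sq]
    have := norm_pos_iff.2 hy0
    positivity
  have hv0y : ⟪v0, y⟫ ≠ 0 := by
    obtain ⟨s, rfl⟩ := Submodule.mem_span_singleton.1 hp
    rw [real_inner_smul_left]
    refine mul_ne_zero ?_ hyp
    rintro rfl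
    simp at hv0
  let v0' : (ℝ ∙ u)ᗮ := ⟨v0, PT57.mem_perp_iff.mpr huv0⟩
  have hv0'1 : ‖v0'‖ = 1 := hv0
  set k : ℝ := (f v0' - f (-v0')) * ⟪v0, y⟫ with hk
  have hk0 : k ≠ 0 := by
    refine mul_ne_zero ?_ hv0y
    intro h
    have h1 : f v0' = f (-v0') := by linarith
    apply hne
    have h2 := hfin v0' hv0'1
    have h3 := hfin (-v0') (by rw [norm_neg]; exact hv0'1)
    exact (ENNReal.toReal_eq_toReal_iff' h2 h3).1 h1
  have hmemU' : v0' ∈ U' := by
    by_contra hcon
    have hcon' : -v0' ∉ U' := fun h => hcon ((hU'neg v0').2 h)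
    have z : ∀ v : (ℝ ∙ u)ᗮ, ‖v‖ = 1 → v ∉ U' → f v = 0 := by
      intro v hv hvU'
      have h2 : volume (prism (face (secQ P u) v) v) = 0 := by
        by_contra hcon
        exact hvU' (Finset.mem_union_left _ ((hU v).2 ⟨hv, hcon⟩))
      show (gv P u (v : E)).toReal = 0
      rw [gv_eq_prism hc hu hv, h2]
      simp
    apply hk0
    rw [hk, z v0' hv0'1 hcon, z (-v0') (by rw [norm_neg]; exact hv0'1) hcon']
    ring
  have hterm : ∀ v ∈ U', (f v - f (-v)) * ⟪(v : E), y⟫ = 0 ∨ (f v - f (-v)) * ⟪(v : E), y⟫ = k := by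
    intro v hv
    have hv1 := hU'1 v hv
    by_cases hd : gv P u (v : E) = gv P u (-(v : E))
    · left
      have : f v = f (-v) := by
        show (gv P u (v : E)).toReal = (gv P u ((-v : (ℝ ∙ u)ᗮ) : E)).toReal
        rw [hd]
        rfl
      rw [this]
      ring
    · rcases hl v hv1 (PT57.mem_perp_iff.mp v.2) hd with h | h
      · right
        rcases unit_in_line (v := (v : E)) hv1 hv0 h hp with h1 | h1
        · have : v = v0' := Subtype.ext h1
          rw [this]
        · have : v = -v0' := Subtype.ext h1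
          rw [this, neg_neg, hk]
          show (f (-v0') - f v0') * ⟪-v0, y⟫ = _
          rw [inner_neg_left]
          ring
      · left
        obtain ⟨s, hs⟩ := Submodule.mem_span_singleton.1 h
        rw [← hs, real_inner_smul_left, hyq]
        ring
  have hzero : ∑ v ∈ U', (f v - f (-v)) * ⟪(v : E), y⟫ = 0 := by
    have h1 := congrArg (fun z : (ℝ ∙ u)ᗮ => ⟪(z : E), y⟫) hanti
    simp only [Submodule.coe_sum, Submodule.coe_smul, sum_inner, real_inner_smul_left,
      Submodule.coe_zero, inner_zero_left] at h1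
    exact h1
  have hpos : 0 < ∑ v ∈ U', k * ((f v - f (-v)) * ⟪(v : E), y⟫) := by
    have hkk : 0 < k * k := by
      have := mul_self_pos.2 hk0
      exact this
    refine Finset.sum_pos' (fun v hv => ?_) ⟨v0', hmemU', ?_⟩
    · rcases hterm v hv with h | h
      · rw [h, mul_zero]
      · rw [h]
        exact hkk.le
    · show 0 < k * ((f v0' - f (-v0')) * ⟪v0, y⟫)
      rw [← hk]
      exact hkk
  rw [← Finset.mul_sum, hzero, mul_zero] at hpos
  exact lt_irrefl _ hpos

theorem delta_zero {P : Set E} (hP : Polytope P) {u p q : E} (hu : ‖u‖ = 1)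
    (hpq : LinearIndependent ℝ ![p, q])
    (hl : ∀ v, ‖v‖ = 1 → ⟪u, v⟫ = 0 → gv P u v ≠ gv P u (-v) →
      v ∈ Submodule.span ℝ {p} ∨ v ∈ Submodule.span ℝ {q}) :
    ∀ v, ‖v‖ = 1 → ⟪u, v⟫ = 0 → gv P u v = gv P u (-v) := by
  intro v hv huv
  by_cases hf : Facet P u
  · by_contra hne
    rcases hl v hv huv hne with h | h
    · exact no_delta hP hf hpq hl hv huv hne h
    · have hqp : LinearIndependent ℝ ![q, p] := by
        rw [LinearIndependent.pair_iff] at hpq ⊢
        intro s t hst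
        have := hpq t s (by rw [add_comm]; exact hst)
        exact ⟨this.2, this.1⟩
      exact no_delta hP hf hqp (fun v h1 h2 h3 => (hl v h1 h2 h3).symm) hv huv hne h
  · exact gv_symm_of_not_facet hP.compact hP.conv hu hv huv hf

end Pool.FF85.D3
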