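import Pool.Agent.PT56.FacC
import Pool.Agent.PT56.HRepF

set_option autoImplicit false
set_option linter.unusedSectionVars false

/-!
# FF85/D3/Defs: the interface for dimension three

`Var3 P a`: the conclusion of part 1 for a facet `a` that varies (note 3599, MP_29fbf2_co): for every edge of the facet
`a`, with outer normal `v` in the facet, the plane `span {a, v}` is orthogonal to the edge; the face of `P` in every
direction `w` of this plane has two edges (or is an edge) parallel to it, all of the same length; the facet normals in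
the plane are `± a, ± b, ± c`.
-/

namespace Pool.FF85.D3

open Set Filter Topology MeasureTheory Pool.PT56
open scoped RealInnerProductSpace ENNReal

variable {E : Type} [NormedAddCommGroup E] [InnerProductSpace ℝ E] [FiniteDimensional ℝ E]
  [MeasurableSpace E] [BorelSpace E]

structure Var3 (P : Set E) (a : E) : Prop where
  fa : Facet P a
  neg : ∀ v, ‖v‖ = 1 → ⟪a, v⟫ = 0 → gv P (-a) v = gv P a v
  circ : ∀ v, ‖v‖ = 1 → ⟪a, v⟫ = 0 → gv P a v ≠ 0 →
    (∀ w ∈ Submodule.span ℝ {a, v}, ∀ w' ∈ Submodule.span ℝ {a, v}, ‖w‖ = 1 → ‖w'‖ = 1 →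
      ⟪w, w'⟫ = 0 → gv P w w' = gv P a v) ∧
    ∃ b ∈ Submodule.span ℝ {a, v}, ∃ c ∈ Submodule.span ℝ {a, v},
      b ∉ Submodule.span ℝ {a} ∧ c ∉ Submodule.span ℝ {a} ∧
      ∀ w ∈ Submodule.span ℝ {a, v}, Facet P w → w = a ∨ w = -a ∨ w = b ∨ w = -b ∨ w = c ∨ w = -c

end Pool.FF85.D3
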