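import Pool.Agent.FF85.D3.Defs

set_option autoImplicit false
set_option linter.unusedSectionVars false

/-!
# FF85/D3/Deg: edges of facets

`facet_of_two`: `thin_unique` in PT56/FacC. `two_of_facet`: the section `secQ P u` is a polytope in the plane
(`secQ_polytope`); if all its facet normals were on one line then `recession` would fail for a vector orthogonal to the
line; `gv_eq` and `vol_prism_muHE` translate.
-/

namespace Pool.FF85.D3

open Set Filter Topology MeasureTheory Pool.PT56
open scoped RealInnerProductSpace ENNReal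

variable {E : Type} [NormedAddCommGroup E] [InnerProductSpace ℝ E] [FiniteDimensional ℝ E]
  [MeasurableSpace E] [BorelSpace E]

theorem facet_of_two {P : Set E} (hP : Polytope P) {u v v' : E} (hu : ‖u‖ = 1) (hv : ‖v‖ = 1)
    (hv' : ‖v'‖ = 1) (huv : ⟪u, v⟫ = 0) (huv' : ⟪u, v'⟫ = 0)
    (hli : LinearIndependent ℝ ![v, v']) (h : gv P u v ≠ 0) (h' : gv P u v' ≠ 0) :
    Facet P u := by
  have hv0 : v ≠ 0 := by
    intro h0
    rw [h0] at hv
    simp at hv
  by_contra hcon
  have hli' := (LinearIndependent.pair_iff' hv0).mp hli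
  rcases thin_unique hP.compact hP.conv hu hv hv' huv huv' hcon h h' with h1 | h1
  · exact hli' 1 (by rw [one_smul, h1])
  · exact hli' (-1) (by rw [h1, neg_smul, one_smul])

/-- the facet normals of a polytope span the space -/
theorem span_facets {P : Set E} (hP : Polytope P) : Submodule.span ℝ {u | Facet P u} = ⊤ := by
  rw [← Submodule.orthogonal_eq_bot_iff, Submodule.eq_bot_iff]
  intro x hx
  apply recession hP
  intro u hu
  rw [Submodule.mem_orthogonal] at hx
  exact (hx u (Submodule.subset_span hu)).le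

theorem two_of_facet {P : Set E} (hP : Polytope P) (h3 : Module.finrank ℝ E = 3) {u : E}
    (h : Facet P u) : ∃ v v' : E, ‖v‖ = 1 ∧ ‖v'‖ = 1 ∧ ⟪u, v⟫ = 0 ∧ ⟪u, v'⟫ = 0 ∧
      LinearIndependent ℝ ![v, v'] ∧ gv P u v ≠ 0 ∧ gv P u v' ≠ 0 := by
  have hc := hP.compact
  have hu := h.1
  have hQ := secQ_polytope hP h
  have hQc := secQ_compact hc hu
  have hspan := span_facets hQ
  have hfr : Module.finrank ℝ (ℝ ∙ u)ᗮ = 2 := by
    rw [finrank_perp1 hu, h3]
  have hgv : ∀ v : (ℝ ∙ u)ᗮ, Facet (secQ P u) v → gv P u (v : E) ≠ 0 := by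
    intro v hv
    rw [gv_eq hc hu v, ← vol_prism_muHE hv.1 (face_compact hQc v)
      (fun x hx => ((mem_face_iff hQc).mp hx).2)]
    exact hv.2
  obtain ⟨v, hv⟩ : ∃ v, Facet (secQ P u) v := by
    by_contra hcon
    push Not at hcon
    have h1 : {w | Facet (secQ P u) w} = ∅ := by
      rw [eq_empty_iff_forall_notMem]
      exact hcon
    rw [h1, Submodule.span_empty] at hspan
    have h2 : Module.finrank ℝ (⊤ : Submodule ℝ (ℝ ∙ u)ᗮ) = 0 := by
      rw [← hspan]
      exact finrank_bot ℝ _
    rw [finrank_top, hfr] at h2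
    omega
  have hv0 : v ≠ 0 := by
    intro h0
    have := hv.1
    rw [h0] at this
    simp at this
  obtain ⟨v', hv', hne⟩ : ∃ v', Facet (secQ P u) v' ∧ v' ∉ Submodule.span ℝ {v} := by
    by_contra hcon
    push Not at hcon
    have h1 : Submodule.span ℝ {w | Facet (secQ P u) w} ≤ Submodule.span ℝ {v} := by
      rw [Submodule.span_le]
      intro w hw
      exact hcon w hw
    rw [hspan] at h1
    have h2 := Submodule.finrank_mono h1
    rw [finrank_top, hfr] at h2
    have h4 : Module.finrank ℝ (Submodule.span ℝ {v}) = 1 := finrank_span_singleton hv0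
    omega
  have hv0' : (v : E) ≠ 0 := by
    intro h0
    exact hv0 (Subtype.ext h0)
  refine ⟨(v : E), (v' : E), hv.1, hv'.1, PT57.mem_perp_iff.mp v.2, PT57.mem_perp_iff.mp v'.2, ?_,
    hgv v hv, hgv v' hv'⟩
  rw [LinearIndependent.pair_iff' hv0']
  intro a ha
  apply hne
  rw [Submodule.mem_span_singleton]
  refine ⟨a, Subtype.ext ?_⟩
  rw [Submodule.coe_smul]
  exact ha

end Pool.FF85.D3
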