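import Pool.Agent.FF85.D3.Defs

set_option autoImplicit false
set_option linter.unusedSectionVars false

/-!
# FF85/D3/Frame: frames in dimension three
-/

namespace Pool.FF85.D3

open Set Filter Topology MeasureTheory Pool.PT56
open scoped RealInnerProductSpace ENNReal

variable {E : Type} [NormedAddCommGroup E] [InnerProductSpace ℝ E]

theorem inner_one {u : E} (hu : ‖u‖ = 1) : ⟪u, u⟫ = 1 := by
  rw [real_inner_self_eq_norm_sq, hu]; norm_num

/-- in dimension three the plane orthogonal to `h` is spanned by any orthonormal pair in it -/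
theorem mem_span_of_perp (h3 : Module.finrank ℝ E = 3) {u v h x : E} (hu : ‖u‖ = 1) (hv : ‖v‖ = 1)
    (hh : ‖h‖ = 1) (huv : ⟪u, v⟫ = 0) (huh : ⟪u, h⟫ = 0) (hvh : ⟪v, h⟫ = 0) (hx : ⟪x, h⟫ = 0) :
    x ∈ Submodule.span ℝ {u, v} := by
  have : FiniteDimensional ℝ E := Module.finite_of_finrank_eq_succ h3
  -- the vector y = x - <u,x> u - <v,x> v is orthogonal to u, v, h
  have hon : Orthonormal ℝ ![u, v, h] := by
    constructor
    · intro i
      fin_cases i
      · exact hu
      · exact hv
      · exact hh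
    · intro i j hij
      fin_cases i <;> fin_cases j
      · exact absurd rfl hij
      · exact huv
      · exact huh
      · exact (real_inner_comm _ _).trans huv
      · exact absurd rfl hij
      · exact hvh
      · exact (real_inner_comm _ _).trans huh
      · exact (real_inner_comm _ _).trans hvh
      · exact absurd rfl hij
  have hspan : Submodule.span ℝ (Set.range ![u, v, h]) = ⊤ := by
    apply hon.linearIndependent.span_eq_top_of_card_eq_finrank'
    simp [h3]
  have hmem : x ∈ Submodule.span ℝ (Set.range ![u, v, h]) := by rw [hspan]; trivial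
  rw [Matrix.range_cons, Matrix.range_cons, Matrix.range_cons, Matrix.range_empty, union_empty,
    ← Set.insert_eq, ← Set.insert_eq, Submodule.mem_span_insert] at hmem
  obtain ⟨α, z, hz, hxz⟩ := hmem
  rw [Submodule.mem_span_pair] at hz
  obtain ⟨β, γ, hz⟩ := hz
  have hγ : γ = 0 := by
    rw [hxz, ← hz, inner_add_left, inner_add_left, real_inner_smul_left, real_inner_smul_left,
      real_inner_smul_left, huh, hvh, inner_one hh] at hx
    linarith
  rw [Submodule.mem_span_pair]
  refine ⟨α, β, ?_⟩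
  rw [hxz, ← hz, hγ, zero_smul, add_zero]

theorem perp_of_mem_span {u v h x : E} (huh : ⟪u, h⟫ = 0) (hvh : ⟪v, h⟫ = 0)
    (hx : x ∈ Submodule.span ℝ {u, v}) : ⟪x, h⟫ = 0 := by
  rw [Submodule.mem_span_pair] at hx
  obtain ⟨α, β, rfl⟩ := hx
  rw [inner_add_left, real_inner_smul_left, real_inner_smul_left, huh, hvh]
  ring

/-- two unit vectors orthogonal to the same plane -/
theorem par_of_perp (h3 : Module.finrank ℝ E = 3) {x y h g : E} (hx : ‖x‖ = 1) (hy : ‖y‖ = 1)
    (hxy : ⟪x, y⟫ = 0) (hh : ‖h‖ = 1) (hg : ‖g‖ = 1) (hxh : ⟪x, h⟫ = 0) (hyh : ⟪y, h⟫ = 0)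
    (hxg : ⟪x, g⟫ = 0) (hyg : ⟪y, g⟫ = 0) : g = h ∨ g = -h := by
  -- g - <g,h> h is orthogonal to h, so it is in the span of x, y, and orthogonal to x, y
  have h1 : ⟪g - ⟪g, h⟫ • h, h⟫ = 0 := by
    rw [inner_sub_left, real_inner_smul_left, inner_one hh]; ring
  have h2 := mem_span_of_perp h3 hx hy hh hxy hxh hyh h1
  have h3' : ⟪g - ⟪g, h⟫ • h, g - ⟪g, h⟫ • h⟫ = 0 := by
    apply perp_of_mem_span _ _ h2
    · rw [inner_sub_right, real_inner_smul_right, hxg, hxh]; ring
    · rw [inner_sub_right, real_inner_smul_right, hyg, hyh]; ring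
  have h4 : g = ⟪g, h⟫ • h := sub_eq_zero.1 (inner_self_eq_zero.1 h3')
  have h5 : |⟪g, h⟫| = 1 := by
    have h6 := congrArg norm h4
    rw [norm_smul, hh, hg, mul_one, Real.norm_eq_abs] at h6
    exact h6.symm
  rcases (abs_eq zero_le_one).1 h5 with h6 | h6
  · left; rw [h4, h6, one_smul]
  · right; rw [h4, h6, neg_smul, one_smul]

/-- unit vectors of the plane are on the circle -/
theorem exists_angle {u v w : E} (hu : ‖u‖ = 1) (hv : ‖v‖ = 1) (huv : ⟪u, v⟫ = 0)
    (hw : ‖w‖ = 1) (hmem : w ∈ Submodule.span ℝ {u, v}) : ∃ t : ℝ, w = ww u v t := by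
  rw [Submodule.mem_span_pair] at hmem
  obtain ⟨α, β, rfl⟩ := hmem
  have h1 : α ^ 2 + β ^ 2 = 1 := by
    have h2 : ⟪α • u + β • v, α • u + β • v⟫ = 1 := inner_one hw
    rw [inner_add_left, inner_add_right, inner_add_right] at h2
    simp only [real_inner_smul_left, real_inner_smul_right] at h2
    rw [inner_one hu, inner_one hv, huv, real_inner_comm u v, huv] at h2
    linarith
  have h2 : ‖(⟨α, β⟩ : ℂ)‖ = 1 := by
    rw [Complex.norm_def, Complex.normSq_mk, ← sq, ← sq, h1, Real.sqrt_one]
  have h4 : (⟨α, β⟩ : ℂ) ≠ 0 := by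
    intro h
    rw [h, norm_zero] at h2
    exact zero_ne_one h2
  refine ⟨Complex.arg ⟨α, β⟩, ?_⟩
  unfold ww
  rw [Complex.cos_arg h4, Complex.sin_arg, h2]
  simp

/-- the second vector of the frame, up to the sign -/
theorem frame_second {u v w' : E} (hu : ‖u‖ = 1) (hv : ‖v‖ = 1) (huv : ⟪u, v⟫ = 0) (t : ℝ)
    (hw' : ‖w'‖ = 1) (hmem : w' ∈ Submodule.span ℝ {u, v}) (hperp : ⟪ww u v t, w'⟫ = 0) :
    w' = ww' u v t ∨ w' = -ww' u v t := by
  rw [Submodule.mem_span_pair] at hmem
  obtain ⟨α, β, rfl⟩ := hmem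
  have h1 : α ^ 2 + β ^ 2 = 1 := by
    have h2 : ⟪α • u + β • v, α • u + β • v⟫ = 1 := inner_one hw'
    rw [inner_add_left, inner_add_right, inner_add_right] at h2
    simp only [real_inner_smul_left, real_inner_smul_right] at h2
    rw [inner_one hu, inner_one hv, huv, real_inner_comm u v, huv] at h2
    linarith
  have h3 : Real.cos t * α + Real.sin t * β = 0 := by
    unfold ww at hperp
    rw [inner_add_left, inner_add_right, inner_add_right] at hperp
    simp only [real_inner_smul_left, real_inner_smul_right] at hperp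
    rw [inner_one hu, inner_one hv, huv, real_inner_comm u v, huv] at hperp
    linarith
  have h4 := Real.sin_sq_add_cos_sq t
  -- s := -sin t * α + cos t * β, α = -s sin t, β = s cos t
  set s := -Real.sin t * α + Real.cos t * β with hs
  have h5 : α = -(s * Real.sin t) := by
    rw [hs]
    linear_combination (-α) * h4 + Real.cos t * h3
  have h6 : β = s * Real.cos t := by
    rw [hs]
    linear_combination (-β) * h4 + Real.sin t * h3
  have h7 : s ^ 2 = 1 := by
    have : α ^ 2 + β ^ 2 = s ^ 2 * (Real.sin t ^ 2 + Real.cos t ^ 2) := by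
      rw [h5, h6]; ring
    rw [h1, h4, mul_one] at this
    exact this.symm
  have h7a : s = 1 ∨ s = -1 := by
    have h9 : (s - 1) * (s + 1) = 0 := by linear_combination h7
    rcases mul_eq_zero.1 h9 with h10 | h10
    · left; linarith
    · right; linarith
  rcases h7a with h8 | h8
  · left
    unfold ww'
    rw [h5, h6, h8]
    simp
  · right
    unfold ww'
    rw [h5, h6, h8]
    simp [add_comm]

end Pool.FF85.D3
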