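import Mathlib

set_option autoImplicit false

/-!
# FF85/D3/Lines: linear algebra in dimension three

`lines`: a direction `h` with `⟪a, h⟫ ≠ 0` that is orthogonal to `b₁` or `c₁` and to `b₂` or `c₂` lies on one of four lines;
the plane orthogonal to `u` contains at most two of them; `v` is determined by `h`, because `v` and `h` are orthogonal
vectors of the plane orthogonal to `u`.
-/

namespace Pool.FF85.D3

open scoped RealInnerProductSpace

variable {E : Type} [NormedAddCommGroup E] [InnerProductSpace ℝ E]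

/-- the common perpendicular of two planes -/
theorem exists_perp (h3 : Module.finrank ℝ E = 3) (u v : E) : ∃ h : E, ‖h‖ = 1 ∧ ⟪u, h⟫ = 0 ∧
    ⟪v, h⟫ = 0 := by
  haveI : FiniteDimensional ℝ E := Module.finite_of_finrank_pos (by omega)
  have h1 : ∃ x : E, x ≠ 0 ∧ ⟪u, x⟫ = 0 ∧ ⟪v, x⟫ = 0 := by
    classical
    let K : Submodule ℝ E := Submodule.span ℝ (({u, v} : Finset E) : Set E)
    have hK : Module.finrank ℝ K ≤ 2 :=
      (finrank_span_finset_le_card _).trans Finset.card_le_two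
    have hK' : 0 < Module.finrank ℝ Kᗮ := by
      have := Submodule.finrank_add_finrank_orthogonal K
      omega
    obtain ⟨x, hx⟩ := (Module.finrank_pos_iff_exists_ne_zero (R := ℝ) (M := Kᗮ)).1 hK'
    have hx' := (Submodule.mem_orthogonal K (x : E)).1 x.2
    exact ⟨x, fun h => hx (by ext; simpa using h),
      hx' u (Submodule.subset_span (by simp)), hx' v (Submodule.subset_span (by simp))⟩
  obtain ⟨x, hx0, hux, hvx⟩ := h1
  have hn : ‖x‖ ≠ 0 := norm_ne_zero_iff.2 hx0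
  refine ⟨(‖x‖)⁻¹ • x, ?_, ?_, ?_⟩
  · rw [norm_smul, norm_inv, norm_norm, inv_mul_cancel₀ hn]
  · rw [inner_smul_right, hux, mul_zero]
  · rw [inner_smul_right, hvx, mul_zero]

/-- the vectors orthogonal to two independent vectors are on one line -/
theorem perp_line (h3 : Module.finrank ℝ E = 3) {x y z z' : E} (hxy : LinearIndependent ℝ ![x, y])
    (hz : z ≠ 0) (h1 : ⟪z, x⟫ = 0) (h2 : ⟪z, y⟫ = 0) (h1' : ⟪z', x⟫ = 0) (h2' : ⟪z', y⟫ = 0) :
    z' ∈ Submodule.span ℝ {z} := by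
  haveI : FiniteDimensional ℝ E := Module.finite_of_finrank_pos (by omega)
  by_contra hcon
  have hli : LinearIndependent ℝ ![z', z] := by
    rw [LinearIndependent.pair_iff]
    intro s t hst
    have hs : s = 0 := by
      by_contra hs
      apply hcon
      rw [Submodule.mem_span_singleton]
      refine ⟨-(s⁻¹ * t), ?_⟩
      have h4 : z' = s⁻¹ • (s • z' + t • z) - (s⁻¹ * t) • z := by
        rw [smul_add, smul_smul, smul_smul, inv_mul_cancel₀ hs, one_smul]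
        abel
      rw [h4, hst, smul_zero, zero_sub, neg_smul]
    rw [hs, zero_smul, zero_add] at hst
    exact ⟨hs, (smul_eq_zero.1 hst).resolve_right hz⟩
  -- `x, y, z, z'` would be independent
  have h4 : LinearIndependent ℝ ![x, y, z', z] := by
    rw [Fintype.linearIndependent_iff]
    intro g hg
    rw [Fin.sum_univ_four] at hg
    simp only [Matrix.cons_val_zero, Matrix.cons_val_one, Matrix.cons_val] at hg
    obtain ⟨A, hA⟩ : ∃ A : E, A = g 0 • x + g 1 • y := ⟨_, rfl⟩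
    obtain ⟨B, hB⟩ : ∃ B : E, B = g 2 • z' + g 3 • z := ⟨_, rfl⟩
    have hAB : A + B = 0 := by
      rw [hA, hB, ← hg]
      abel
    have hin : ⟪B, A⟫ = 0 := by
      rw [hA, hB]
      simp only [inner_add_left, inner_add_right, real_inner_smul_left, real_inner_smul_right,
        h1, h2, h1', h2']
      ring
    have hB0 : B = 0 := by
      rw [← inner_self_eq_zero (𝕜 := ℝ)]
      have h5 : ⟪B, A + B⟫ = 0 := by rw [hAB, inner_zero_right]
      rw [inner_add_right, hin, zero_add] at h5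
      exact h5
    have hA0 : A = 0 := by
      rw [hB0, add_zero] at hAB
      exact hAB
    rw [LinearIndependent.pair_iff] at hxy hli
    obtain ⟨h5, h6⟩ := hxy _ _ (hA ▸ hA0)
    obtain ⟨h7, h8⟩ := hli _ _ (hB ▸ hB0)
    intro i
    fin_cases i
    · exact h5
    · exact h6
    · exact h7
    · exact h8
  have h5 := h4.fintype_card_le_finrank
  rw [h3, Fintype.card_fin] at h5
  omega

theorem lines (h3 : Module.finrank ℝ E = 3) {a v₁ v₂ b₁ c₁ b₂ c₂ u : E}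
    (hli : LinearIndependent ℝ ![a, v₁, v₂])
    (hb₁ : b₁ ∈ Submodule.span ℝ {a, v₁}) (hc₁ : c₁ ∈ Submodule.span ℝ {a, v₁})
    (hb₁' : b₁ ∉ Submodule.span ℝ {a}) (hc₁' : c₁ ∉ Submodule.span ℝ {a})
    (hb₂ : b₂ ∈ Submodule.span ℝ {a, v₂}) (hc₂ : c₂ ∈ Submodule.span ℝ {a, v₂})
    (hb₂' : b₂ ∉ Submodule.span ℝ {a}) (hc₂' : c₂ ∉ Submodule.span ℝ {a})
    (hu : ‖u‖ = 1) :
    ∃ p q : E, LinearIndependent ℝ ![p, q] ∧ ∀ v h : E, ‖v‖ = 1 → ⟪u, v⟫ = 0 → ‖h‖ = 1 →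
      ⟪u, h⟫ = 0 → ⟪v, h⟫ = 0 → ⟪a, h⟫ ≠ 0 → (⟪b₁, h⟫ = 0 ∨ ⟪c₁, h⟫ = 0) →
      (⟪b₂, h⟫ = 0 ∨ ⟪c₂, h⟫ = 0) → v ∈ Submodule.span ℝ {p} ∨ v ∈ Submodule.span ℝ {q} := by
  classical
  have hu0 : u ≠ 0 := by
    intro h
    rw [h, norm_zero] at hu
    exact zero_ne_one hu
  have unit0 : ∀ x : E, ‖x‖ = 1 → x ≠ 0 := by
    intro x hx h
    rw [h, norm_zero] at hx
    exact zero_ne_one hx
  let S : Set E := {v | ‖v‖ = 1 ∧ ⟪u, v⟫ = 0 ∧ ∃ h : E, ‖h‖ = 1 ∧ ⟪u, h⟫ = 0 ∧ ⟪v, h⟫ = 0 ∧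
    (⟪b₁, h⟫ = 0 ∨ ⟪c₁, h⟫ = 0) ∧ (⟪b₂, h⟫ = 0 ∨ ⟪c₂, h⟫ = 0)}
  -- a vector of `span {a, v₁}` and a vector of `span {a, v₂}`, not multiples of `a`, are not both multiples of `u`
  have hrs : ∀ r ∈ Submodule.span ℝ ({a, v₁} : Set E), r ∉ Submodule.span ℝ ({a} : Set E) →
      ∀ s ∈ Submodule.span ℝ ({a, v₂} : Set E), s ∉ Submodule.span ℝ ({a} : Set E) →
      r ∈ Submodule.span ℝ ({u} : Set E) → s ∈ Submodule.span ℝ ({u} : Set E) → False := by
    intro r hr hr' s hs hs' hru hsu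
    obtain ⟨α, β, hr1⟩ := Submodule.mem_span_pair.1 hr
    obtain ⟨α', β', hs1⟩ := Submodule.mem_span_pair.1 hs
    obtain ⟨l, hl⟩ := Submodule.mem_span_singleton.1 hru
    obtain ⟨m, hm⟩ := Submodule.mem_span_singleton.1 hsu
    have hβ : β ≠ 0 := by
      rintro rfl
      apply hr'
      rw [Submodule.mem_span_singleton]
      exact ⟨α, by rw [← hr1, zero_smul, add_zero]⟩
    have h0 : (m * α - l * α') • a + (m * β) • v₁ + (-(l * β')) • v₂ = 0 := by
      have h4 : m • r - l • s = 0 := by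
        rw [← hl, ← hm, smul_smul, smul_smul, mul_comm, sub_self]
      rw [← hr1, ← hs1] at h4
      rw [← h4]
      module
    rw [Fintype.linearIndependent_iff] at hli
    have h5 := hli ![m * α - l * α', m * β, -(l * β')] (by
      rw [Fin.sum_univ_three]
      simpa using h0)
    have h6 := h5 1
    simp only [Matrix.cons_val_one, Matrix.cons_val_zero] at h6
    have hm0 : m = 0 := (mul_eq_zero.1 h6).resolve_right hβ
    apply hs'
    rw [← hm, hm0, zero_smul]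
    exact Submodule.zero_mem _
  -- independence from a missing membership
  have hind : ∀ x y : E, x ≠ 0 → y ∉ Submodule.span ℝ ({x} : Set E) →
      LinearIndependent ℝ ![x, y] := by
    intro x y hx hy
    rw [LinearIndependent.pair_iff]
    intro s t hst
    have ht : t = 0 := by
      by_contra ht
      apply hy
      rw [Submodule.mem_span_singleton]
      refine ⟨-(t⁻¹ * s), ?_⟩
      have h4 : y = t⁻¹ • (s • x + t • y) - (t⁻¹ * s) • x := by
        rw [smul_add, smul_smul, smul_smul, inv_mul_cancel₀ ht, one_smul]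
        abel
      rw [h4, hst, smul_zero, zero_sub, neg_smul]
    rw [ht, zero_smul, add_zero] at hst
    exact ⟨(smul_eq_zero.1 hst).resolve_right hx, ht⟩
  -- two of the directions with the same label `r` give `r ∈ span {u}`
  have hpair : ∀ r v h v' h' : E, ‖v‖ = 1 → ⟪u, v⟫ = 0 → ‖h‖ = 1 → ⟪u, h⟫ = 0 → ⟪v, h⟫ = 0 →
      ‖v'‖ = 1 → ⟪u, v'⟫ = 0 → ‖h'‖ = 1 → ⟪u, h'⟫ = 0 → ⟪v', h'⟫ = 0 →
      v' ∉ Submodule.span ℝ ({v} : Set E) → ⟪r, h⟫ = 0 → ⟪r, h'⟫ = 0 →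
      r ∈ Submodule.span ℝ ({u} : Set E) := by
    intro r v h v' h' hv huv hh huh hvh hv' huv' hh' huh' hvh' hne hr hr'
    have hhh : LinearIndependent ℝ ![h, h'] := by
      refine hind h h' (unit0 h hh) fun hmem => hne ?_
      obtain ⟨k, hk⟩ := Submodule.mem_span_singleton.1 hmem
      have hk0 : k ≠ 0 := by
        rintro rfl
        rw [zero_smul] at hk
        exact unit0 h' hh' hk.symm
      have hvh2 : ⟪v', h⟫ = 0 := by
        rw [← hk, inner_smul_right] at hvh'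
        exact (mul_eq_zero.1 hvh').resolve_left hk0
      have huhli : LinearIndependent ℝ ![u, h] := by
        refine hind u h hu0 fun hmem' => ?_
        obtain ⟨k', hk'⟩ := Submodule.mem_span_singleton.1 hmem'
        have h4 : ⟪h, h⟫ = 0 := by
          nth_rewrite 1 [← hk']
          rw [inner_smul_left, huh, mul_zero]
        exact unit0 h hh (inner_self_eq_zero.1 h4)
      exact perp_line h3 huhli (unit0 v hv) (by rw [real_inner_comm]; exact huv) hvh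
        (by rw [real_inner_comm]; exact huv') hvh2
    exact perp_line h3 hhh hu0 huh huh' hr hr'
  -- no three pairwise independent directions
  have hthree : ∀ x ∈ S, ∀ y ∈ S, ∀ z ∈ S, y ∉ Submodule.span ℝ ({x} : Set E) →
      z ∉ Submodule.span ℝ ({x} : Set E) → z ∉ Submodule.span ℝ ({y} : Set E) → False := by
    rintro x ⟨hx, hux, h, hh, huh, hxh, hr, hs⟩ y ⟨hy, huy, h', hh', huh', hyh', hr', hs'⟩
      z ⟨hz, huz, h'', hh'', huh'', hzh'', hr'', hs''⟩ hxy hxz hyz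
    have e1 : ∀ r : E, ⟪r, h⟫ = 0 → ⟪r, h'⟫ = 0 → r ∈ Submodule.span ℝ ({u} : Set E) :=
      fun r => hpair r x h y h' hx hux hh huh hxh hy huy hh' huh' hyh' hxy
    have e2 : ∀ r : E, ⟪r, h⟫ = 0 → ⟪r, h''⟫ = 0 → r ∈ Submodule.span ℝ ({u} : Set E) :=
      fun r => hpair r x h z h'' hx hux hh huh hxh hz huz hh'' huh'' hzh'' hxz
    have e3 : ∀ r : E, ⟪r, h'⟫ = 0 → ⟪r, h''⟫ = 0 → r ∈ Submodule.span ℝ ({u} : Set E) :=
      fun r => hpair r y h' z h'' hy huy hh' huh' hyh' hz huz hh'' huh'' hzh'' hyz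
    have hpig : ∀ b c : E, (⟪b, h⟫ = 0 ∨ ⟪c, h⟫ = 0) → (⟪b, h'⟫ = 0 ∨ ⟪c, h'⟫ = 0) →
        (⟪b, h''⟫ = 0 ∨ ⟪c, h''⟫ = 0) →
        b ∈ Submodule.span ℝ ({u} : Set E) ∨ c ∈ Submodule.span ℝ ({u} : Set E) := by
      intro b c k1 k2 k3
      rcases k1 with k1 | k1 <;> rcases k2 with k2 | k2 <;> rcases k3 with k3 | k3
      · exact Or.inl (e1 b k1 k2)
      · exact Or.inl (e1 b k1 k2)
      · exact Or.inl (e2 b k1 k3)
      · exact Or.inr (e3 c k2 k3)
      · exact Or.inl (e3 b k2 k3)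
      · exact Or.inr (e2 c k1 k3)
      · exact Or.inr (e1 c k1 k2)
      · exact Or.inr (e1 c k1 k2)
    have hR : ∃ r ∈ Submodule.span ℝ ({a, v₁} : Set E), r ∉ Submodule.span ℝ ({a} : Set E) ∧
        r ∈ Submodule.span ℝ ({u} : Set E) := by
      rcases hpig b₁ c₁ hr hr' hr'' with k | k
      · exact ⟨b₁, hb₁, hb₁', k⟩
      · exact ⟨c₁, hc₁, hc₁', k⟩
    have hS : ∃ r ∈ Submodule.span ℝ ({a, v₂} : Set E), r ∉ Submodule.span ℝ ({a} : Set E) ∧
        r ∈ Submodule.span ℝ ({u} : Set E) := by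
      rcases hpig b₂ c₂ hs hs' hs'' with k | k
      · exact ⟨b₂, hb₂, hb₂', k⟩
      · exact ⟨c₂, hc₂, hc₂', k⟩
    obtain ⟨r, hr1, hr2, hr3⟩ := hR
    obtain ⟨s, hs1, hs2, hs3⟩ := hS
    exact hrs r hr1 hr2 s hs1 hs2 hr3 hs3
  have hmem : ∀ v h : E, ‖v‖ = 1 → ⟪u, v⟫ = 0 → ‖h‖ = 1 → ⟪u, h⟫ = 0 → ⟪v, h⟫ = 0 →
      (⟪b₁, h⟫ = 0 ∨ ⟪c₁, h⟫ = 0) → (⟪b₂, h⟫ = 0 ∨ ⟪c₂, h⟫ = 0) → v ∈ S :=
    fun v h h1 h2 h4 h5 h6 h7 h8 => ⟨h1, h2, h, h4, h5, h6, h7, h8⟩
  -- a vector not on a given line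
  have hout : ∀ x : E, ∃ y : E, y ∉ Submodule.span ℝ ({x} : Set E) := by
    intro x
    obtain ⟨y, hy, hxy, -⟩ := exists_perp h3 x x
    by_cases hx : x = 0
    · refine ⟨y, fun h => ?_⟩
      rw [hx, Submodule.span_zero_singleton, Submodule.mem_bot] at h
      exact unit0 y hy h
    · refine ⟨y, fun h => ?_⟩
      obtain ⟨k, hk⟩ := Submodule.mem_span_singleton.1 h
      have h4 : ⟪y, y⟫ = 0 := by
        nth_rewrite 1 [← hk]
        rw [inner_smul_left, hxy, mul_zero]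
      exact unit0 y hy (inner_self_eq_zero.1 h4)
  by_cases hS : ∃ x, x ∈ S
  · obtain ⟨x, hx⟩ := hS
    have hx0 : x ≠ 0 := unit0 x hx.1
    by_cases hS2 : ∃ y ∈ S, y ∉ Submodule.span ℝ ({x} : Set E)
    · obtain ⟨y, hy, hxy⟩ := hS2
      refine ⟨x, y, hind x y hx0 hxy, fun v h k1 k2 k3 k4 k5 _ k6 k7 => ?_⟩
      by_contra hcon
      push Not at hcon
      exact hthree x hx y hy v (hmem v h k1 k2 k3 k4 k5 k6 k7) hxy hcon.1 hcon.2
    · push Not at hS2
      obtain ⟨y, hy⟩ := hout x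
      exact ⟨x, y, hind x y hx0 hy, fun v h k1 k2 k3 k4 k5 _ k6 k7 =>
        Or.inl (hS2 v (hmem v h k1 k2 k3 k4 k5 k6 k7))⟩
  · obtain ⟨y, hy⟩ := hout u
    exact ⟨u, y, hind u y hu0 hy, fun v h k1 k2 k3 k4 k5 _ k6 k7 =>
      absurd ⟨v, hmem v h k1 k2 k3 k4 k5 k6 k7⟩ hS⟩

end Pool.FF85.D3
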