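import Pool.Agent.FF85.D3.Frame
import Pool.Agent.FF85.D3.Bal
import Pool.Agent.FF85.D3.Deg
import Pool.Agent.FF85.D3.Close
import Pool.Agent.FF85.D3.Area
import Pool.Agent.FF85.D3.Lines

set_option autoImplicit false
set_option linter.unusedSectionVars false

/-!
# FF85/D3/Main: a polytope of dimension three that tiles, with a facet as in `Var3`, is centrally symmetric
-/

namespace Pool.FF85.D3

open Set Filter Topology MeasureTheory Pool.PT56
open scoped RealInnerProductSpace ENNReal

variable {E : Type} [NormedAddCommGroup E] [InnerProductSpace ℝ E] [FiniteDimensional ℝ E]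
  [MeasurableSpace E] [BorelSpace E]

/-- the balance sum -/
noncomputable def bal (P : Set E) (u v : E) : ℝ≥0∞ := gv P u v + gv P (-u) (-v)

theorem bal_neg {P : Set E} (hP : Polytope P) (hT : Tiles P) {u v : E} (hu : ‖u‖ = 1)
    (hv : ‖v‖ = 1) (huv : ⟪u, v⟫ = 0) : bal P u (-v) = bal P u v := by
  unfold bal
  rw [neg_neg]
  exact (gv_law hP.compact hP.conv hP.2 hT hu hv huv).symm

/-- the balance sum is the same for all frames of the plane -/
theorem bal_frame {P : Set E} (hP : Polytope P) (hT : Tiles P) {u v w w' : E} (hu : ‖u‖ = 1)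
    (hv : ‖v‖ = 1) (huv : ⟪u, v⟫ = 0) (hw : ‖w‖ = 1) (hw' : ‖w'‖ = 1) (hww : ⟪w, w'⟫ = 0)
    (hwm : w ∈ Submodule.span ℝ {u, v}) (hwm' : w' ∈ Submodule.span ℝ {u, v}) :
    bal P w w' = bal P u v := by
  obtain ⟨t, rfl⟩ := exists_angle hu hv huv hw hwm
  rcases frame_second hu hv huv t hw' hwm' hww with rfl | rfl
  · exact circ_const hP hT hu hv huv t
  · rw [bal_neg hP hT hw (by rwa [norm_neg] at hw') (by
      rwa [inner_neg_right, neg_eq_zero] at hww)]
    exact circ_const hP hT hu hv huv t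

/-- every edge direction `h` of `P` is orthogonal to one of the facet normals `a, b, c` -/
theorem key (h3 : Module.finrank ℝ E = 3) {P : Set E} (hP : Polytope P) (hT : Tiles P) {a : E}
    (ha : Var3 P a) {v₁ b c : E} (hv₁ : ‖v₁‖ = 1) (hav₁ : ⟪a, v₁⟫ = 0) (hg₁ : gv P a v₁ ≠ 0)
    (hf : ∀ w ∈ Submodule.span ℝ {a, v₁}, Facet P w →
      w = a ∨ w = -a ∨ w = b ∨ w = -b ∨ w = c ∨ w = -c)
    {u v h : E} (hu : ‖u‖ = 1) (hv : ‖v‖ = 1) (huv : ⟪u, v⟫ = 0) (hh : ‖h‖ = 1)
    (huh : ⟪u, h⟫ = 0) (hvh : ⟪v, h⟫ = 0) (hb : bal P u v ≠ 0) :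
    ⟪a, h⟫ = 0 ∨ ⟪b, h⟫ = 0 ∨ ⟪c, h⟫ = 0 := by
  have ha1 : ‖a‖ = 1 := ha.fa.1
  obtain ⟨g, hg, hag, hvg⟩ := exists_perp h3 a v₁
  obtain ⟨th, hth, hhth, hgth⟩ := exists_perp h3 h g
  obtain ⟨th', hth', hthth', hhth'⟩ := exists_perp h3 th h
  obtain ⟨th'', hth'', hthth'', hgth''⟩ := exists_perp h3 th g
  have hthh : ⟪th, h⟫ = 0 := by rw [real_inner_comm]; exact hhth
  have hthg : ⟪th, g⟫ = 0 := by rw [real_inner_comm]; exact hgth
  have hth'h : ⟪th', h⟫ = 0 := by rw [real_inner_comm]; exact hhth'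
  have hth''g : ⟪th'', g⟫ = 0 := by rw [real_inner_comm]; exact hgth''
  -- membership in the planes
  have m1 : th ∈ Submodule.span ℝ {u, v} := mem_span_of_perp h3 hu hv hh huv huh hvh hthh
  have m2 : th' ∈ Submodule.span ℝ {u, v} := mem_span_of_perp h3 hu hv hh huv huh hvh hth'h
  have m3 : th ∈ Submodule.span ℝ {a, v₁} := mem_span_of_perp h3 ha1 hv₁ hg hav₁ hag hvg hthg
  have m4 : th'' ∈ Submodule.span ℝ {a, v₁} := mem_span_of_perp h3 ha1 hv₁ hg hav₁ hag hvg hth''g
  by_cases hdep : LinearIndependent ℝ ![th', th'']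
  swap
  · -- the planes coincide
    left
    have hpar : th'' = th' ∨ th'' = -th' := by
      have h1 : ¬ ∀ s t : ℝ, s • th' + t • th'' = 0 → s = 0 ∧ t = 0 := fun h =>
        hdep (LinearIndependent.pair_iff.2 h)
      push Not at h1
      obtain ⟨s, t, hst, hne⟩ := h1
      have ht : t ≠ 0 := by
        intro ht
        rw [ht, zero_smul, add_zero] at hst
        have hs : s = 0 := by
          rcases smul_eq_zero.1 hst with h | h
          · exact h
          · rw [h, norm_zero] at hth'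
            exact absurd hth' zero_ne_one
        exact hne hs ht
      have h2 : th'' = (-(s / t)) • th' := by
        have h3' : t • th'' = -(s • th') := by
          rw [eq_neg_iff_add_eq_zero, add_comm]
          exact hst
        have h4 : th'' = t⁻¹ • (t • th'') := by rw [smul_smul, inv_mul_cancel₀ ht, one_smul]
        rw [h4, h3', smul_neg, smul_smul, neg_smul]
        congr 2
        field_simp
      have h5 : |(-(s / t))| = 1 := by
        have h6 := congrArg norm h2
        rw [norm_smul, hth', hth'', mul_one, Real.norm_eq_abs] at h6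
        exact h6.symm
      rcases (abs_eq zero_le_one).1 h5 with h6 | h6
      · left; rw [h2, h6, one_smul]
      · right; rw [h2, h6, neg_smul, one_smul]
    have hth'g : ⟪th', g⟫ = 0 := by
      rcases hpar with h | h
      · rw [← h]; exact hth''g
      · have : th' = -th'' := by rw [h, neg_neg]
        rw [this, inner_neg_left, hth''g, neg_zero]
    rcases par_of_perp h3 hth hth' hthth' hh hg hthh hth'h hthg hth'g with e | e
    · rw [← e]; exact hag
    · have e' : h = -g := by rw [e, neg_neg]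
      rw [e', inner_neg_right, hag, neg_zero]
  · -- the balance sum at the direction th
    have hbal : bal P th th' ≠ 0 := by
      rw [bal_frame hP hT hu hv huv hth hth' hthth' m1 m2]
      exact hb
    have hc1 := (ha.circ v₁ hv₁ hav₁ hg₁).1
    have hG1 : gv P th th'' ≠ 0 := by
      rw [hc1 th m3 th'' m4 hth hth'' hthth'']
      exact hg₁
    have hG2 : gv P (-th) th'' ≠ 0 := by
      rw [hc1 (-th) (Submodule.neg_mem _ m3) th'' m4 (by rw [norm_neg]; exact hth) hth''
        (by rw [inner_neg_left, hthth'', neg_zero])]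
      exact hg₁
    have hcases : gv P th th' ≠ 0 ∨ gv P (-th) (-th') ≠ 0 := by
      by_contra hcon
      push Not at hcon
      apply hbal
      unfold bal
      rw [hcon.1, hcon.2, add_zero]
    have conc : ∀ w, (w = th ∨ w = -th) → (w = a ∨ w = -a ∨ w = b ∨ w = -b ∨ w = c ∨ w = -c) →
        ⟪a, h⟫ = 0 ∨ ⟪b, h⟫ = 0 ∨ ⟪c, h⟫ = 0 := by
      intro w hw hw2
      have hwh : ⟪w, h⟫ = 0 := by
        rcases hw with rfl | rfl
        · exact hthh
        · rw [inner_neg_left, hthh, neg_zero]
      have hneg : ∀ x : E, w = -x → ⟪x, h⟫ = 0 := by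
        intro x hx
        rw [hx, inner_neg_left, neg_eq_zero] at hwh
        exact hwh
      rcases hw2 with h1 | h1 | h1 | h1 | h1 | h1
      · left; rw [← h1]; exact hwh
      · left; exact hneg a h1
      · right; left; rw [← h1]; exact hwh
      · right; left; exact hneg b h1
      · right; right; rw [← h1]; exact hwh
      · right; right; exact hneg c h1
    rcases hcases with h1 | h1
    · have hF : Facet P th := facet_of_two hP hth hth' hth'' hthth' hthth'' hdep h1 hG1
      exact conc th (Or.inl rfl) (hf th m3 hF)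
    · have hdep' : LinearIndependent ℝ ![-th', th''] := by
        rw [LinearIndependent.pair_iff] at hdep ⊢
        intro s t hst
        have := hdep (-s) t (by rw [neg_smul, ← smul_neg]; exact hst)
        exact ⟨neg_eq_zero.1 this.1, this.2⟩
      have hF : Facet P (-th) := facet_of_two hP (by rw [norm_neg]; exact hth)
        (by rw [norm_neg]; exact hth') hth'' (by rw [inner_neg_left, inner_neg_right, neg_neg]; exact hthth')
        (by rw [inner_neg_left, hthth'', neg_zero]) hdep' h1 hG2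
      exact conc (-th) (Or.inr rfl) (hf (-th) (Submodule.neg_mem _ m3) hF)

/-- all faces are balanced -/
theorem all_sym (h3 : Module.finrank ℝ E = 3) {P : Set E} (hP : Polytope P) (hT : Tiles P) {a : E}
    (ha : Var3 P a) {u v : E} (hu : ‖u‖ = 1) (hv : ‖v‖ = 1) (huv : ⟪u, v⟫ = 0) :
    gv P u v = gv P u (-v) := by
  have ha1 : ‖a‖ = 1 := ha.fa.1
  obtain ⟨v₁, v₂, hv₁, hv₂, hav₁, hav₂, hli, hg₁, hg₂⟩ := two_of_facet hP h3 ha.fa
  obtain ⟨hc₁, b₁, hb₁, c₁, hc₁m, hb₁', hc₁', hf₁⟩ := ha.circ v₁ hv₁ hav₁ hg₁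
  obtain ⟨hc₂, b₂, hb₂, c₂, hc₂m, hb₂', hc₂', hf₂⟩ := ha.circ v₂ hv₂ hav₂ hg₂
  have hli3 : LinearIndependent ℝ ![a, v₁, v₂] := by
    refine linearIndependent_fin_cons.2 ⟨hli, fun hmem => ?_⟩
    have h1 : a ∈ Submodule.span ℝ {v₁, v₂} := by
      have h2 : Set.range ![v₁, v₂] = {v₁, v₂} := by
        rw [Matrix.range_cons, Matrix.range_cons, Matrix.range_empty, union_empty,
          ← Set.insert_eq]
      rwa [h2] at hmem
    have h2 : ⟪a, a⟫ = 0 := perp_of_mem_span (by rw [real_inner_comm]; exact hav₁)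
      (by rw [real_inner_comm]; exact hav₂) h1
    rw [inner_one ha1] at h2
    exact one_ne_zero h2
  obtain ⟨p, q, hpq, hlines⟩ := lines h3 hli3 hb₁ hc₁m hb₁' hc₁' hb₂ hc₂m hb₂' hc₂' hu
  refine delta_zero hP hu hpq ?_ v hv huv
  intro v hv huv hne
  obtain ⟨h, hh, huh, hvh⟩ := exists_perp h3 u v
  have hbal : bal P u v ≠ 0 := by
    intro h0
    have h1 : gv P u v = 0 := by
      unfold bal at h0
      exact (add_eq_zero.1 h0).1
    have h2 : bal P u (-v) = 0 := by rw [bal_neg hP hT hu hv huv]; exact h0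
    have h3' : gv P u (-v) = 0 := by
      unfold bal at h2
      exact (add_eq_zero.1 h2).1
    exact hne (by rw [h1, h3'])
  have hah : ⟪a, h⟫ ≠ 0 := by
    intro hah
    obtain ⟨w, hw, haw, hhw⟩ := exists_perp h3 a h
    have hwh : ⟪w, h⟫ = 0 := by rw [real_inner_comm]; exact hhw
    have ma : a ∈ Submodule.span ℝ {u, v} := mem_span_of_perp h3 hu hv hh huv huh hvh hah
    have mw : w ∈ Submodule.span ℝ {u, v} := mem_span_of_perp h3 hu hv hh huv huh hvh hwh
    have h1 : bal P a w ≠ 0 := by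
      rw [bal_frame hP hT hu hv huv ha1 hw haw ma mw]
      exact hbal
    have h2 : gv P a w ≠ 0 ∨ gv P a (-w) ≠ 0 := by
      by_contra hcon
      push Not at hcon
      apply h1
      unfold bal
      rw [ha.neg (-w) (by rw [norm_neg]; exact hw) (by rw [inner_neg_right, haw, neg_zero]),
        hcon.1, hcon.2, add_zero]
    have fin : ∀ w, ‖w‖ = 1 → ⟪a, w⟫ = 0 → ⟪w, h⟫ = 0 → gv P a w ≠ 0 → gv P u v = gv P u (-v) := by
      intro w hw haw hwh hgw
      have hcw := (ha.circ w hw haw hgw).1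
      have mu : u ∈ Submodule.span ℝ {a, w} := mem_span_of_perp h3 ha1 hw hh haw hah hwh huh
      have mv : v ∈ Submodule.span ℝ {a, w} := mem_span_of_perp h3 ha1 hw hh haw hah hwh hvh
      rw [hcw u mu v mv hu hv huv, hcw u mu (-v) (Submodule.neg_mem _ mv) hu
        (by rw [norm_neg]; exact hv) (by rw [inner_neg_right, huv, neg_zero])]
    rcases h2 with h2 | h2
    · exact hne (fin w hw haw hwh h2)
    · exact hne (fin (-w) (by rw [norm_neg]; exact hw) (by rw [inner_neg_right, haw, neg_zero])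
        (by rw [inner_neg_left, hwh, neg_zero]) h2)
  refine hlines v h hv huv hh huh hvh hah ?_ ?_
  · rcases key h3 hP hT ha hv₁ hav₁ hg₁ hf₁ hu hv huv hh huh hvh hbal with h1 | h1 | h1
    · exact absurd h1 hah
    · exact Or.inl h1
    · exact Or.inr h1
  · rcases key h3 hP hT ha hv₂ hav₂ hg₂ hf₂ hu hv huv hh huh hvh hbal with h1 | h1 | h1
    · exact absurd h1 hah
    · exact Or.inl h1
    · exact Or.inr h1

theorem opp (h3 : Module.finrank ℝ E = 3) {P : Set E} (hP : Polytope P) (hT : Tiles P) {a : E}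
    (ha : Var3 P a) {u v : E} (hu : ‖u‖ = 1) (hv : ‖v‖ = 1) (huv : ⟪u, v⟫ = 0) :
    gv P (-u) v = gv P u v := by
  have h1 : gv P (-u) (- -v) = gv P u (-v) := by
    refine circ_sym hP hu (by rw [norm_neg]; exact hv) (by rw [inner_neg_right, huv, neg_zero])
      fun t => ?_
    have hv' : ‖-v‖ = 1 := by rw [norm_neg]; exact hv
    have huv' : ⟪u, -v⟫ = 0 := by rw [inner_neg_right, huv, neg_zero]
    exact (all_sym h3 hP hT ha (norm_ww hu hv' huv' t) (norm_ww' hu hv' huv' t)
      (inner_ww hu hv' huv' t)).symm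
  rw [neg_neg] at h1
  rw [h1]
  exact (all_sym h3 hP hT ha hu hv huv).symm

theorem facet_opp (h3 : Module.finrank ℝ E = 3) {P : Set E} (hP : Polytope P) (hT : Tiles P)
    {a : E} (ha : Var3 P a) {u : E} (hf : Facet P u) : Facet P (-u) := by
  have hu := hf.1
  obtain ⟨v, v', hv, hv', huv, huv', hli, hg, hg'⟩ := two_of_facet hP h3 hf
  refine facet_of_two hP (by rw [norm_neg]; exact hu) hv hv' (by rw [inner_neg_left, huv, neg_zero])
    (by rw [inner_neg_left, huv', neg_zero]) hli ?_ ?_
  · rw [opp h3 hP hT ha hu hv huv]; exact hg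
  · rw [opp h3 hP hT ha hu hv' huv']; exact hg'

theorem prism_dir {P : Set E} (hP : Polytope P) {u : E} (hu : ‖u‖ = 1) :
    volume (prism (face P (-u)) u) = volume (prism (face P (-u)) (-u)) := by
  have hc := hP.compact
  have hu' : ‖-u‖ = 1 := by rw [norm_neg]; exact hu
  rw [vol_prism_muHE hu (face_compact hc (-u)) (fun x hx => face_neg_level hc hx),
    vol_prism_muHE hu' (face_compact hc (-u)) (fun x hx => ((mem_face_iff hc).mp hx).2)]

/-- THE END OF (C), dimension three -/
theorem csym_of_var3 (h3 : Module.finrank ℝ E = 3) {P : Set E} (hP : Polytope P) (hT : Tiles P)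
    {a : E} (ha : Var3 P a) : CSym P := by
  refine mink hP fun u hu => ?_
  by_cases hf : Facet P u
  · exact area_eq h3 hP hf (facet_opp h3 hP hT ha hf) fun v hv huv => opp h3 hP hT ha hu hv huv
  · have hf' : ¬ Facet P (-u) := by
      intro h
      have := facet_opp h3 hP hT ha h
      rw [neg_neg] at this
      exact hf this
    have h1 : volume (prism (face P u) u) = 0 := by
      by_contra hcon
      exact hf ⟨hu, hcon⟩
    have h2 : volume (prism (face P (-u)) (-u)) = 0 := by
      by_contra hcon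
      exact hf' ⟨by rw [norm_neg]; exact hu, hcon⟩
    rw [h1, prism_dir hP hu, h2]

end Pool.FF85.D3
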